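import Mathlib

set_option autoImplicit false

/-!
Linear algebra over the rational numbers for exponent vectors.
-/

namespace Pool.Agent.CITTrans

open Module

/-- The rational span of a group of integer vectors. -/
def QQ {n : ℕ} (H : Submodule ℤ (Fin n → ℤ)) : Submodule ℚ (Fin n → ℚ) :=
  Submodule.span ℚ ((fun (a : Fin n → ℤ) (i : Fin n) => (a i : ℚ)) '' (H : Set (Fin n → ℤ)))

/-- Integer vectors with support in `I`. -/
def suppSub {n : ℕ} (I : Finset (Fin n)) : Submodule ℤ (Fin n → ℤ) where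
  carrier := {a | ∀ i, i ∉ I → a i = 0}
  zero_mem' := fun _ _ => rfl
  add_mem' := fun ha hb i hi => by simp [ha i hi, hb i hi]
  smul_mem' := fun k a ha i hi => by simp [ha i hi]

theorem cast_mem_QQ {n : ℕ} {H : Submodule ℤ (Fin n → ℤ)} {a : Fin n → ℤ} (ha : a ∈ H) :
    (fun i => (a i : ℚ)) ∈ QQ H :=
  Submodule.subset_span ⟨a, ha, rfl⟩

theorem QQ_mono {n : ℕ} {H H' : Submodule ℤ (Fin n → ℤ)} (h : H ≤ H') : QQ H ≤ QQ H' :=
  Submodule.span_mono (Set.image_mono h)

theorem exists_multiple_mem {n : ℕ} {H : Submodule ℤ (Fin n → ℤ)} {v : Fin n → ℚ}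
    (hv : v ∈ QQ H) : ∃ k : ℤ, k ≠ 0 ∧ ∃ a ∈ H, ∀ i, (a i : ℚ) = k * v i := by
  refine Submodule.span_induction (p := fun v _ => ∃ k : ℤ, k ≠ 0 ∧ ∃ a ∈ H,
    ∀ i, (a i : ℚ) = k * v i) ?_ ?_ ?_ ?_ hv
  · rintro _ ⟨a, ha, rfl⟩
    exact ⟨1, one_ne_zero, a, ha, fun i => by simp⟩
  · exact ⟨1, one_ne_zero, 0, H.zero_mem, fun i => by simp⟩
  · rintro x y _ _ ⟨k, hk, a, ha, hka⟩ ⟨l, hl, b, hb, hlb⟩
    refine ⟨k * l, mul_ne_zero hk hl, l • a + k • b,
      H.add_mem (H.smul_mem l ha) (H.smul_mem k hb), fun i => ?_⟩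
    have h1 := hka i
    have h2 := hlb i
    simp only [Pi.add_apply, Pi.smul_apply, smul_eq_mul, Int.cast_add, Int.cast_mul, h1, h2]
    ring
  · rintro q x _ ⟨k, hk, a, ha, hka⟩
    refine ⟨k * q.den, mul_ne_zero hk (by exact_mod_cast q.den_nz), q.num • a,
      H.smul_mem _ ha, fun i => ?_⟩
    have h1 := hka i
    simp only [Pi.smul_apply, smul_eq_mul, Int.cast_mul, h1, Int.cast_natCast]
    have h2 : (q.num : ℚ) = q.den * q := by
      rw [mul_comm]
      exact (Rat.mul_den_eq_num q).symm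
    rw [h2]
    ring

/-- Selection of coordinates complementary to a subspace. -/
theorem exists_coord_complement {n : ℕ} (U : Submodule ℚ (Fin n → ℚ)) :
    ∃ K : Finset (Fin n), K.card + finrank ℚ U = n ∧
      ∀ v ∈ U, (∀ i, i ∉ K → v i = 0) → v = 0 := by
  classical
  obtain ⟨κ, a, ha, hspan, hli⟩ := exists_linearIndependent' ℚ
    (fun i : Fin n => U.mkQ (Pi.single i (1 : ℚ)))
  have hfin : Finite κ := Finite.of_injective a ha
  have hft : Fintype κ := Fintype.ofFinite κ
  refine ⟨Finset.univ.image a, ?_, ?_⟩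
  · rw [Finset.card_image_of_injective _ ha, Finset.card_univ]
    have h1 := finrank_span_eq_card hli
    rw [hspan] at h1
    have h2 : Submodule.span ℚ (Set.range fun i : Fin n => U.mkQ (Pi.single i (1 : ℚ))) = ⊤ := by
      have h3 : (Set.range fun i : Fin n => U.mkQ (Pi.single i (1 : ℚ))) =
          U.mkQ '' (Set.range fun i : Fin n => (Pi.single i (1 : ℚ) : Fin n → ℚ)) := by
        rw [← Set.range_comp]
        rfl
      rw [h3, Submodule.span_image]
      have h4 : Submodule.span ℚ (Set.range fun i : Fin n => (Pi.single i (1 : ℚ) : Fin n → ℚ))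
          = ⊤ := by
        have := (Pi.basisFun ℚ (Fin n)).span_eq
        convert this using 3
        funext i
        simp
      rw [h4, Submodule.map_top, Submodule.range_mkQ]
    rw [h2, finrank_top] at h1
    have h5 := Submodule.finrank_quotient_add_finrank U
    rw [h1] at h5
    simpa using h5
  · intro v hv hsupp
    have h1 : U.mkQ v = ∑ k : κ, v (a k) • U.mkQ (Pi.single (a k) (1 : ℚ)) := by
      have h2 : v = ∑ k : κ, v (a k) • (Pi.single (a k) (1 : ℚ) : Fin n → ℚ) := by
        funext i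
        rw [Finset.sum_apply]
        by_cases hi : i ∈ Finset.univ.image a
        · obtain ⟨k, _, hk⟩ := Finset.mem_image.mp hi
          rw [Finset.sum_eq_single k]
          · subst hk
            simp
          · intro l _ hl
            have : a l ≠ i := fun h => hl (ha (h.trans hk.symm))
            simp [this.symm]
          · intro h
            exact absurd (Finset.mem_univ k) h
        · rw [hsupp i hi]
          symm
          refine Finset.sum_eq_zero fun k _ => ?_
          have : i ≠ a k := fun h => hi (h ▸ Finset.mem_image_of_mem a (Finset.mem_univ k))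
          simp [this]
      conv_lhs => rw [h2]
      rw [map_sum]
      simp only [map_smul]
    have h3 : U.mkQ v = 0 := by
      rw [Submodule.mkQ_apply]
      exact (Submodule.Quotient.mk_eq_zero U).mpr hv
    rw [h3] at h1
    have h4 := Fintype.linearIndependent_iff.mp hli (fun k => v (a k)) h1.symm
    funext i
    by_cases hi : i ∈ Finset.univ.image a
    · obtain ⟨k, _, hk⟩ := Finset.mem_image.mp hi
      rw [← hk]
      exact h4 k
    · exact hsupp i hi

theorem card_le_finrank_QQ_suppSub {n : ℕ} (I : Finset (Fin n)) :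
    I.card ≤ finrank ℚ (QQ (suppSub I)) := by
  classical
  have hli : LinearIndependent ℚ (fun i : I => (Pi.single i.1 (1 : ℚ) : Fin n → ℚ)) := by
    have h1 := (Pi.basisFun ℚ (Fin n)).linearIndependent
    have h2 := h1.comp (fun i : I => i.1) Subtype.val_injective
    convert h2 using 1
    funext i
    simp
  have h3 := finrank_span_eq_card hli
  rw [Fintype.card_coe] at h3
  rw [← h3]
  refine Submodule.finrank_mono ?_
  rw [Submodule.span_le]
  rintro _ ⟨i, rfl⟩
  have h4 : (Pi.single i.1 (1 : ℤ) : Fin n → ℤ) ∈ suppSub I := by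
    intro j hj
    have : j ≠ i.1 := fun h => hj (h ▸ i.2)
    simp [this]
  have h5 := cast_mem_QQ h4
  have h6 : (fun j => (((Pi.single i.1 (1 : ℤ) : Fin n → ℤ) j : ℤ) : ℚ)) =
      (Pi.single i.1 (1 : ℚ) : Fin n → ℚ) := by
    funext j
    by_cases hj : j = i.1
    · subst hj
      simp
    · simp [Pi.single_apply, hj]
  rw [h6] at h5
  exact h5

theorem QQ_inf_eq_bot {n : ℕ} {M : Submodule ℤ (Fin n → ℤ)} {I : Finset (Fin n)}
    (hMI : ∀ a ∈ M, (∀ i, i ∉ I → a i = 0) → a = 0) : QQ M ⊓ QQ (suppSub I) = ⊥ := by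
  rw [eq_bot_iff]
  rintro v ⟨hv1, hv2⟩
  obtain ⟨k, hk, a, ha, hka⟩ := exists_multiple_mem hv1
  obtain ⟨l, hl, b, hb, hlb⟩ := exists_multiple_mem hv2
  have h0 : ∀ i, i ∉ I → v i = 0 := by
    intro i hi
    have h1 := hlb i
    have h2 : b i = 0 := hb i hi
    rw [h2, Int.cast_zero] at h1
    have hl' : (l : ℚ) ≠ 0 := by exact_mod_cast hl
    exact (mul_eq_zero.mp h1.symm).resolve_left hl'
  have h3 : a = 0 := by
    refine hMI a ha fun i hi => ?_
    have h1 := hka i
    rw [h0 i hi, mul_zero] at h1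
    exact_mod_cast h1
  rw [Submodule.mem_bot]
  funext i
  have h1 := hka i
  rw [h3] at h1
  have hk' : (k : ℚ) ≠ 0 := by exact_mod_cast hk
  simp only [Pi.zero_apply, Int.cast_zero] at h1
  exact (mul_eq_zero.mp h1.symm).resolve_left hk'

/-- The combinatorial lemma: a common integer vector. -/
theorem exists_common_vector {n : ℕ} (M : Submodule ℤ (Fin n → ℤ)) (I : Finset (Fin n)) (r : ℕ)
    (c : Finset (Fin n) → (Fin n → ℤ))
    (hc : ∀ K : Finset (Fin n), K.card = r + 1 → c K ≠ 0 ∧ ∀ i, i ∉ K → c K i = 0)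
    (hMI : ∀ a ∈ M, (∀ i, i ∉ I → a i = 0) → a = 0)
    (hr : r + 1 ≤ finrank ℚ (QQ M) + I.card) :
    ∃ l : Fin n → ℤ, l ≠ 0 ∧ l ∈ M ⊔ suppSub I ∧
      ∃ k : ℤ, k ≠ 0 ∧ k • l ∈ Submodule.span ℤ (c '' {K | K.card = r + 1}) := by
  classical
  set W := Submodule.span ℤ (c '' {K | K.card = r + 1}) with hW
  have h1 : r + 1 ≤ finrank ℚ (QQ (M ⊔ suppSub I)) := by
    have h2 : QQ M ⊔ QQ (suppSub I) ≤ QQ (M ⊔ suppSub I) :=
      sup_le (QQ_mono le_sup_left) (QQ_mono le_sup_right)
    have h3 := Submodule.finrank_mono h2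
    have h4 := Submodule.finrank_sup_add_finrank_inf_eq (QQ M) (QQ (suppSub I))
    rw [QQ_inf_eq_bot hMI, finrank_bot, add_zero] at h4
    have h5 := card_le_finrank_QQ_suppSub I
    omega
  have h2 : n ≤ finrank ℚ (QQ W) + r := by
    by_contra hlt
    push Not at hlt
    obtain ⟨K', hK', hK'U⟩ := exists_coord_complement (QQ W)
    have h3 : r + 1 ≤ K'.card := by omega
    obtain ⟨K, hKK', hK⟩ := Finset.exists_subset_card_eq h3
    obtain ⟨hc0, hcs⟩ := hc K hK
    have h4 : c K ∈ W := Submodule.subset_span ⟨K, hK, rfl⟩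
    have h5 := hK'U _ (cast_mem_QQ h4) (fun i hi => by
      have : i ∉ K := fun h => hi (hKK' h)
      simp [hcs i this])
    apply hc0
    funext i
    have h6 := congrFun h5 i
    simpa using h6
  have h3 : 0 < finrank ℚ (QQ (M ⊔ suppSub I) ⊓ QQ W : Submodule ℚ (Fin n → ℚ)) := by
    have h4 := Submodule.finrank_sup_add_finrank_inf_eq (QQ (M ⊔ suppSub I)) (QQ W)
    have h5 : finrank ℚ (QQ (M ⊔ suppSub I) ⊔ QQ W : Submodule ℚ (Fin n → ℚ)) ≤ n := by
      have := Submodule.finrank_le (QQ (M ⊔ suppSub I) ⊔ QQ W)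
      simpa using this
    omega
  obtain ⟨⟨v, hv1, hv2⟩, hv0⟩ := finrank_pos_iff_exists_ne_zero.mp h3
  have hv0' : v ≠ 0 := fun h => hv0 (Subtype.ext h)
  obtain ⟨k, hk, a, ha, hka⟩ := exists_multiple_mem hv1
  obtain ⟨l, hl, b, hb, hlb⟩ := exists_multiple_mem hv2
  refine ⟨a, ?_, ha, l, hl, ?_⟩
  · intro h
    apply hv0'
    funext i
    have h4 := hka i
    rw [h] at h4
    have hk' : (k : ℚ) ≠ 0 := by exact_mod_cast hk
    simp only [Pi.zero_apply, Int.cast_zero] at h4
    exact (mul_eq_zero.mp h4.symm).resolve_left hk'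
  · have h4 : l • a = k • b := by
      funext i
      have h5 := hka i
      have h6 := hlb i
      simp only [Pi.smul_apply, smul_eq_mul]
      have : ((l * a i : ℤ) : ℚ) = ((k * b i : ℤ) : ℚ) := by
        push_cast
        rw [h5, h6]
        ring
      exact_mod_cast this
    rw [h4]
    exact W.smul_mem k hb

end Pool.Agent.CITTrans
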