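import Pool.Agent.CITTrans.Dim
import Pool.Agent.CITTrans.Lin

set_option autoImplicit false

/-!
Cosets of algebraic tori: a lower bound for the dimension.
-/

namespace Pool.Agent.CITTrans

open Module

/-- The character `a ↦ ∏ u i ^ a i` as an additive homomorphism. -/
noncomputable def char {n : ℕ} (u : Fin n → ℂˣ) : (Fin n → ℤ) →+ Additive ℂˣ where
  toFun a := Additive.ofMul (∏ i, u i ^ a i)
  map_zero' := by simp
  map_add' a b := by
    rw [← ofMul_mul, ← Finset.prod_mul_distrib]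
    simp only [Pi.add_apply, zpow_add]

theorem char_apply {n : ℕ} (u : Fin n → ℂˣ) (a : Fin n → ℤ) :
    char u a = Additive.ofMul (∏ i, u i ^ a i) := rfl

theorem baer_units : Module.Baer ℤ (Additive ℂˣ) := by
  let _ : DivisibleBy (Additive ℂˣ) ℤ := by
    refine divisibleByOfSMulRightSurj _ _ ?_
    intro m hm x
    have h1 : ∃ z : ℂˣ, z ^ m = Additive.toMul x := by
      have h2 : ∀ (k : ℕ), k ≠ 0 → ∀ w : ℂˣ, ∃ z : ℂˣ, z ^ k = w := by
        intro k hk w
        obtain ⟨z, hz⟩ := IsAlgClosed.exists_pow_nat_eq (w : ℂ) (Nat.pos_of_ne_zero hk)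
        have hz0 : z ≠ 0 := by
          rintro rfl
          rw [zero_pow hk] at hz
          exact w.ne_zero hz.symm
        exact ⟨Units.mk0 z hz0, Units.ext (by simpa using hz)⟩
      obtain ⟨k, rfl | rfl⟩ := m.eq_nat_or_neg
      · have hk : k ≠ 0 := by
          rintro rfl
          exact hm rfl
        obtain ⟨z, hz⟩ := h2 k hk (Additive.toMul x)
        exact ⟨z, by rw [zpow_natCast, hz]⟩
      · have hk : k ≠ 0 := by
          rintro rfl
          exact hm rfl
        obtain ⟨z, hz⟩ := h2 k hk (Additive.toMul x)⁻¹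
        exact ⟨z, by rw [zpow_neg, zpow_natCast, hz, inv_inv]⟩
    obtain ⟨z, hz⟩ := h1
    refine ⟨Additive.ofMul z, ?_⟩
    change m • Additive.ofMul z = x
    rw [← ofMul_zpow, hz, ofMul_toMul]
  exact Module.Baer.of_divisible _

/-- Points of a torus coset with prescribed coordinates in `J`. -/
theorem exists_point {n : ℕ} (M : Submodule ℤ (Fin n → ℤ)) (J : Finset (Fin n))
    (hMJ : ∀ a ∈ M, (∀ i, i ∉ J → a i = 0) → a = 0) (η u : Fin n → ℂˣ) :
    ∃ y : Fin n → ℂˣ, (∀ j ∈ J, y j = u j) ∧ ∀ a ∈ M, ∏ i, y i ^ a i = ∏ i, η i ^ a i := by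
  classical
  let f : M × suppSub J →+ (Fin n → ℤ) :=
    (M.subtype.toAddMonoidHom).coprod (suppSub J).subtype.toAddMonoidHom
  have hf : Function.Injective f := by
    rw [injective_iff_map_eq_zero]
    rintro ⟨⟨a, ha⟩, ⟨b, hb⟩⟩ hab
    have h1 : a + b = 0 := hab
    have h2 : a = 0 := by
      refine hMJ a ha fun i hi => ?_
      have h3 := congrFun h1 i
      have h4 : b i = 0 := hb i hi
      simp only [Pi.add_apply, h4, add_zero, Pi.zero_apply] at h3
      exact h3
    have h3 : b = 0 := by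
      rw [h2, zero_add] at h1
      exact h1
    subst h2
    subst h3
    rfl
  let g : M × suppSub J →+ Additive ℂˣ :=
    ((char η).comp M.subtype.toAddMonoidHom).coprod
      ((char u).comp (suppSub J).subtype.toAddMonoidHom)
  obtain ⟨h, hh⟩ := baer_units.extension_property_addMonoidHom f hf g
  have hh' : ∀ z, h (f z) = g z := fun z => DFunLike.congr_fun hh z
  have hchar : ∀ a : Fin n → ℤ,
      h a = Additive.ofMul (∏ i, (Additive.toMul (h (Pi.single i 1))) ^ a i) := by
    intro a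
    have h1 : a = ∑ i, a i • (Pi.single i (1 : ℤ) : Fin n → ℤ) := by
      funext j
      rw [Finset.sum_apply]
      simp [Pi.single_apply]
    conv_lhs => rw [h1]
    rw [map_sum, ofMul_prod]
    refine Finset.sum_congr rfl fun i _ => ?_
    rw [map_zsmul, ofMul_zpow, ofMul_toMul]
  refine ⟨fun i => Additive.toMul (h (Pi.single i 1)), ?_, ?_⟩
  · intro j hj
    have h1 : (Pi.single j (1 : ℤ) : Fin n → ℤ) ∈ suppSub J := by
      intro i hi
      have : i ≠ j := fun h => hi (h ▸ hj)
      simp [this]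
    have h2 := hh' (0, ⟨_, h1⟩)
    have h3 : f (0, ⟨_, h1⟩) = Pi.single j (1 : ℤ) := by
      simp [f]
    have h4 : g (0, ⟨_, h1⟩) = Additive.ofMul (u j) := by
      simp only [g, AddMonoidHom.coprod_apply, map_zero, zero_add]
      change char u (Pi.single j 1) = _
      rw [char_apply]
      congr 1
      rw [Finset.prod_eq_single j]
      · simp
      · intro i _ hi
        simp [hi]
      · simp
    rw [h3, h4] at h2
    simp only [h2, toMul_ofMul]
  · intro a ha
    have h2 := hh' (⟨a, ha⟩, 0)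
    have h3 : f (⟨a, ha⟩, 0) = a := by
      simp [f]
    have h4 : g (⟨a, ha⟩, 0) = Additive.ofMul (∏ i, η i ^ a i) := by
      simp only [g, AddMonoidHom.coprod_apply, map_zero, add_zero]
      rfl
    rw [h3, h4, hchar a] at h2
    exact Additive.ofMul.injective h2

/-- The vanishing ideal of a set of points. -/
noncomputable abbrev vanI {n : ℕ} (X : Set (Fin n → ℂ)) : Ideal (MvPolynomial (Fin n) ℂ) :=
  ⨅ x ∈ X, RingHom.ker (MvPolynomial.eval x : MvPolynomial (Fin n) ℂ →+* ℂ)

theorem mem_vanI {n : ℕ} {X : Set (Fin n → ℂ)} {F : MvPolynomial (Fin n) ℂ} :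
    F ∈ vanI X ↔ ∀ x ∈ X, MvPolynomial.eval x F = 0 := by
  simp only [vanI, Ideal.mem_iInf, RingHom.mem_ker]

/-- A polynomial vanishing at all points with nonzero coordinates is zero. -/
theorem eq_zero_of_eval_units {ι : Type} [Fintype ι] (F : MvPolynomial ι ℂ)
    (hF : ∀ u : ι → ℂ, (∀ i, u i ≠ 0) → MvPolynomial.eval u F = 0) : F = 0 := by
  classical
  have h1 : F * ∏ i, MvPolynomial.X i = 0 := by
    refine MvPolynomial.funext fun u => ?_
    rw [map_mul, map_prod, map_zero]
    simp only [MvPolynomial.eval_X]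
    by_cases hu : ∀ i, u i ≠ 0
    · rw [hF u hu, zero_mul]
    · push Not at hu
      obtain ⟨i, hi⟩ := hu
      rw [Finset.prod_eq_zero (Finset.mem_univ i) hi, mul_zero]
  rcases mul_eq_zero.mp h1 with h2 | h2
  · exact h2
  · exact absurd h2 (Finset.prod_ne_zero_iff.mpr fun i _ => MvPolynomial.X_ne_zero i)

theorem torus_dim {n : ℕ} (M : Submodule ℤ (Fin n → ℤ)) (η : Fin n → ℂ)
    (hη : ∃ m : ℕ, 0 < m ∧ ∀ i, η i ^ m = 1) (T : Set (Fin n → ℂ))
    (hT : T = {y : Fin n → ℂ | (∀ i, y i ≠ 0) ∧ ∀ a ∈ M, ∏ i, y i ^ a i = ∏ i, η i ^ a i}) :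
    ∃ k : ℕ, k + finrank ℚ (QQ M) = n ∧
      (k : WithBot ℕ∞) ≤ ringKrullDim (MvPolynomial (Fin n) ℂ ⧸ vanI T) := by
  classical
  obtain ⟨J, hJ, hJM⟩ := exists_coord_complement (QQ M)
  refine ⟨J.card, hJ, ?_⟩
  have hMJ : ∀ a ∈ M, (∀ i, i ∉ J → a i = 0) → a = 0 := by
    intro a ha hs
    have h1 := hJM _ (cast_mem_QQ ha) (fun i hi => by simp [hs i hi])
    funext i
    have h2 := congrFun h1 i
    simpa using h2
  have hη0 : ∀ i, η i ≠ 0 := by
    obtain ⟨m, hm, h⟩ := hη
    intro i hi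
    have := h i
    rw [hi, zero_pow hm.ne'] at this
    exact zero_ne_one this
  have hind : AlgebraicIndependent ℂ
      (fun j : J => Ideal.Quotient.mkₐ ℂ (vanI T) (MvPolynomial.X j.1)) := by
    rw [algebraicIndependent_iff]
    intro F hF
    have h1 : MvPolynomial.aeval
        (fun j : J => Ideal.Quotient.mkₐ ℂ (vanI T) (MvPolynomial.X j.1)) F =
        Ideal.Quotient.mkₐ ℂ (vanI T) (MvPolynomial.rename (fun j : J => j.1) F) := by
      have : (MvPolynomial.aeval
          (fun j : J => Ideal.Quotient.mkₐ ℂ (vanI T) (MvPolynomial.X j.1)) :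
            MvPolynomial J ℂ →ₐ[ℂ] MvPolynomial (Fin n) ℂ ⧸ vanI T) =
          (Ideal.Quotient.mkₐ ℂ (vanI T)).comp (MvPolynomial.rename (fun j : J => j.1)) := by
        ext j
        simp
      rw [this]
      rfl
    rw [h1] at hF
    have h2 : MvPolynomial.rename (fun j : J => j.1) F ∈ vanI T :=
      Ideal.Quotient.eq_zero_iff_mem.mp hF
    rw [mem_vanI] at h2
    refine eq_zero_of_eval_units F fun u hu => ?_
    obtain ⟨y, hyJ, hyM⟩ := exists_point M J hMJ (fun i => Units.mk0 (η i) (hη0 i))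
      (fun i => if h : i ∈ J then Units.mk0 (u ⟨i, h⟩) (hu _) else 1)
    have h3 : (fun i => (y i : ℂ)) ∈ T := by
      rw [hT]
      refine ⟨fun i => (y i).ne_zero, fun a ha => ?_⟩
      have h4 := congrArg (Units.val) (hyM a ha)
      simpa using h4
    have h5 := h2 _ h3
    rw [MvPolynomial.eval_rename] at h5
    have h6 : (fun i => (y i : ℂ)) ∘ (fun j : J => j.1) = u := by
      funext j
      have h7 := hyJ j.1 j.2
      simp [h7]
    rw [h6] at h5
    exact h5
  have h8 := card_le_ringKrullDim ℂ (MvPolynomial (Fin n) ℂ ⧸ vanI T) _ hind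
  rw [Fintype.card_coe] at h8
  exact h8

end Pool.Agent.CITTrans
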