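import Pool.Agent.CITTrans.Gen

set_option autoImplicit false

/-!
The valuation argument at one prime.
-/

namespace Pool.Agent.CITTrans

open Module

theorem val_eq_one_of_mem {K : Type} [Field K] (B : ValuationSubring K) (z : K) (hz : z ≠ 0)
    (h1 : z ∈ B) (h2 : z⁻¹ ∈ B) : B.valuation z = 1 := by
  have h3 := (B.valuation_le_one_iff z).mpr h1
  have h4 := (B.valuation_le_one_iff z⁻¹).mpr h2
  rw [map_inv₀] at h4
  have h5 : B.valuation z ≠ 0 := (Valuation.ne_zero_iff _).mpr hz
  refine le_antisymm h3 ?_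
  exact (inv_le_one₀ (zero_lt_iff.mpr h5)).mp h4

theorem zpow_finset_sum {ι G : Type*} [CommGroup G] (u : G) (s : Finset ι) (f : ι → ℤ) :
    u ^ (∑ i ∈ s, f i) = ∏ i ∈ s, u ^ f i := by
  classical
  induction s using Finset.induction_on with
  | empty => simp
  | insert a s ha ih => rw [Finset.sum_insert ha, Finset.prod_insert ha, zpow_add, ih]

/-- The valuation argument at one prime. -/
theorem exists_choice {n : ℕ} (X : Set (Fin n → ℂ)) [hX : (vanI X).IsPrime]
    (h0 : ∀ x ∈ X, ∀ i, x i ≠ 0) (I : Finset (Fin n))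
    (hI : AlgebraicIndependent ℂ (fun i : I => gen X i)) (M : Submodule ℤ (Fin n → ℤ))
    (η : Fin n → ℂ) (hη : ∃ m : ℕ, 0 < m ∧ ∀ i, η i ^ m = 1)
    (hXM : ∀ x ∈ X, ∀ a ∈ M, ∏ i, x i ^ a i = ∏ i, η i ^ a i)
    (g : Fin n → ℚ) (hg : ∀ i, g i ≠ 0) (r : ℕ)
    (F : Finset (Fin n) → MvPolynomial (Fin n) ℂ) (hF0 : ∀ K, K.card = r + 1 → F K ≠ 0)
    (hFX : ∀ K, K.card = r + 1 → ∀ x ∈ X,
      MvPolynomial.eval (fun i => (g i : ℂ)⁻¹ * x i) (F K) = 0)
    (S : Set ℂ) (hS : ∀ K, K.card = r + 1 → ∀ α ∈ (F K).support,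
      (F K).coeff α ∈ S ∧ ((F K).coeff α)⁻¹ ∈ S)
    (p : ℕ) (hp : p.Prime) (hpS : ((p : ℂ)⁻¹) ∉ Subring.closure S) :
    ∃ c : Finset (Fin n) → (Fin n → ℤ),
      (∀ K, K.card = r + 1 → ∃ α ∈ (F K).support, ∃ β ∈ (F K).support, α ≠ β ∧
        c K = fun i => (α i : ℤ) - (β i : ℤ)) ∧
      (∀ K, K.card ≠ r + 1 → c K = 0) ∧
      ∀ l ∈ M ⊔ suppSub I, ∀ k : ℤ, k ≠ 0 →
        k • l ∈ Submodule.span ℤ (c '' {K | K.card = r + 1}) →
        ∑ i, l i * padicValRat p (g i) = 0 := by
  classical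
  obtain ⟨B, hBS, hBt, hBp⟩ := exists_valuationSubring (K := FF X) (fun i : I => gen X i) hI S p
    hp hpS
  set v := B.valuation with hv
  have hgen := gen_ne_zero X h0
  have hvp : v (p : FF X) < 1 := B.mem_nonunits_iff.mp hBp
  have hint : ∀ m : ℤ, v (m : FF X) ≤ 1 := fun m => (B.valuation_le_one_iff _).mpr
    (intCast_mem B m)
  have hchar : CharZero (FF X) := by
    exact algebraRat.charZero (FF X)
  have hgval : ∀ i, v ((g i : ℚ) : FF X) = v (p : FF X) ^ padicValRat p (g i) :=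
    fun i => val_ratCast v p hp hvp hint (g i) (hg i)
  -- the translated generic point
  let y : Fin n → FF X := fun i => ((g i : ℚ) : FF X)⁻¹ * gen X i
  have hgF : ∀ i, ((g i : ℚ) : FF X) ≠ 0 := fun i => by exact_mod_cast hg i
  have hy : ∀ i, y i ≠ 0 := fun i => mul_ne_zero (inv_ne_zero (hgF i)) (hgen i)
  have hyF : ∀ K, K.card = r + 1 → MvPolynomial.aeval y (F K) = 0 := by
    intro K hK
    let σ : MvPolynomial (Fin n) ℂ →ₐ[ℂ] MvPolynomial (Fin n) ℂ :=
      MvPolynomial.aeval (fun i => MvPolynomial.C ((g i : ℂ)⁻¹) * MvPolynomial.X i)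
    have h1 : σ (F K) ∈ vanI X := by
      rw [mem_vanI]
      intro x hx
      have h2 : MvPolynomial.eval x (σ (F K)) =
          MvPolynomial.eval (fun i => (g i : ℂ)⁻¹ * x i) (F K) := by
        have h3 : (MvPolynomial.aeval x : MvPolynomial (Fin n) ℂ →ₐ[ℂ] ℂ).comp σ =
            MvPolynomial.aeval (fun i => (g i : ℂ)⁻¹ * x i) := by
          ext i
          simp [σ]
        exact DFunLike.congr_fun h3 (F K)
      rw [h2]
      exact hFX K hK x hx
    rw [← aeval_gen_eq_zero_iff] at h1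
    have h4 : (MvPolynomial.aeval (gen X) : MvPolynomial (Fin n) ℂ →ₐ[ℂ] FF X).comp σ =
        MvPolynomial.aeval y := by
      ext i
      simp [σ, y]
    rw [← h4]
    exact h1
  have hcoef : ∀ K, K.card = r + 1 → ∀ α ∈ (F K).support,
      v (algebraMap ℂ (FF X) ((F K).coeff α)) = 1 := by
    intro K hK α hα
    obtain ⟨h1, h2⟩ := hS K hK α hα
    have h3 : (F K).coeff α ≠ 0 := MvPolynomial.mem_support_iff.mp hα
    refine val_eq_one_of_mem B _ ?_ (hBS _ h1) ?_
    · exact (map_ne_zero _).mpr h3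
    · rw [← map_inv₀]
      exact hBS _ h2
  have htwo : ∀ K, K.card = r + 1 → ∃ α ∈ (F K).support, ∃ β ∈ (F K).support, α ≠ β ∧
      ∏ i, v (y i) ^ α i = ∏ i, v (y i) ^ β i := fun K hK =>
    exists_two_monomials v y hy (F K) (hF0 K hK) (hyF K hK) (hcoef K hK)
  have hchoice : ∀ K : Finset (Fin n), ∃ c : Fin n → ℤ,
      (K.card = r + 1 → ∃ α ∈ (F K).support, ∃ β ∈ (F K).support, α ≠ β ∧
        (c = fun i => (α i : ℤ) - (β i : ℤ)) ∧
          ∏ i, v (y i) ^ α i = ∏ i, v (y i) ^ β i) ∧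
      (K.card ≠ r + 1 → c = 0) := by
    intro K
    by_cases hK : K.card = r + 1
    · obtain ⟨α, hα, β, hβ, hne, heq⟩ := htwo K hK
      exact ⟨fun i => (α i : ℤ) - (β i : ℤ), fun _ => ⟨α, hα, β, hβ, hne, rfl, heq⟩,
        fun h => absurd hK h⟩
    · exact ⟨0, fun h => absurd h hK, fun _ => rfl⟩
  choose c hc hc' using hchoice
  refine ⟨c, fun K hK => ?_, hc', ?_⟩
  · obtain ⟨α, hα, β, hβ, hne, heq, _⟩ := hc K hK
    exact ⟨α, hα, β, hβ, hne, heq⟩
  · intro l hl k hk hkl
    let wx : Fin n → (B.ValueGroup)ˣ := fun i =>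
      Units.mk0 (v (gen X i)) ((Valuation.ne_zero_iff v).mpr (hgen i))
    let wy : Fin n → (B.ValueGroup)ˣ := fun i =>
      Units.mk0 (v (y i)) ((Valuation.ne_zero_iff v).mpr (hy i))
    have hMx : M ⊔ suppSub I ≤ rel wx := by
      refine sup_le ?_ ?_
      · intro a ha
        rw [mem_rel]
        obtain ⟨m, hm, hηm⟩ := hη
        have h1 := gen_prod_eq X h0 a (∏ i, η i ^ a i) (fun x hx => hXM x hx a ha)
        have h2 : (∏ i, gen X i ^ a i) ^ m = 1 := by
          rw [h1, ← map_pow, ← Finset.prod_pow]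
          have h3 : ∀ i, (η i ^ a i) ^ m = 1 := by
            intro i
            rw [← zpow_natCast, ← zpow_mul, mul_comm, zpow_mul, zpow_natCast, hηm i, one_zpow]
          simp only [h3, Finset.prod_const_one, map_one]
        have h4 : (∏ i, wx i ^ a i) ^ m = 1 := by
          apply Units.ext
          have h5 := congrArg v h2
          rw [map_one, map_pow, map_prod] at h5
          simp only [map_zpow₀] at h5
          simp only [Units.val_pow_eq_pow_val, Units.coe_prod, Units.val_zpow_eq_zpow_val,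
            Units.val_one]
          exact h5
        exact (pow_eq_one_iff_left hm.ne').mp h4
      · intro a ha
        rw [mem_rel]
        refine Finset.prod_eq_one fun i _ => ?_
        by_cases hi : i ∈ I
        · have h1 : wx i = 1 := by
            apply Units.ext
            exact val_eq_one_of_mem B _ (hgen i) (hBt ⟨i, hi⟩).1 (hBt ⟨i, hi⟩).2
          rw [h1, one_zpow]
        · have h1 : a i = 0 := ha i hi
          rw [h1, zpow_zero]
    have hWy : Submodule.span ℤ (c '' {K | K.card = r + 1}) ≤ rel wy := by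
      rw [Submodule.span_le]
      rintro _ ⟨K, hK, rfl⟩
      obtain ⟨α, hα, β, hβ, hne, heq, hprod⟩ := hc K hK
      change c K ∈ rel wy
      rw [mem_rel, heq]
      have h1 : ∏ i, wy i ^ α i = ∏ i, wy i ^ β i := by
        apply Units.ext
        simp only [Units.coe_prod, Units.val_pow_eq_pow_val]
        exact hprod
      simp only [zpow_sub, zpow_natCast]
      rw [Finset.prod_mul_distrib, h1, ← Finset.prod_mul_distrib]
      simp
    have hlx : l ∈ rel wx := hMx hl
    have hly : l ∈ rel wy := mem_rel_of_smul_mem hk (hWy hkl)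
    rw [mem_rel] at hlx hly
    -- the value of the translate
    have hpu : v (p : FF X) ≠ 0 := by
      rw [Valuation.ne_zero_iff]
      exact_mod_cast hp.ne_zero
    have h1 : ∀ i, wx i = Units.mk0 (v (p : FF X)) hpu ^ padicValRat p (g i) * wy i := by
      intro i
      apply Units.ext
      simp only [Units.val_mul, Units.val_zpow_eq_zpow_val, wx, wy, Units.val_mk0, y]
      rw [← hgval i, ← map_mul, mul_inv_cancel_left₀ (hgF i)]
    have h2 : (Units.mk0 (v (p : FF X)) hpu) ^ (∑ i, l i * padicValRat p (g i)) = 1 := by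
      have h3 : ∏ i, wx i ^ l i =
          (Units.mk0 (v (p : FF X)) hpu) ^ (∑ i, l i * padicValRat p (g i)) *
            ∏ i, wy i ^ l i := by
        simp only [h1, mul_zpow, Finset.prod_mul_distrib]
        congr 1
        rw [zpow_finset_sum]
        refine Finset.prod_congr rfl fun i _ => ?_
        rw [← zpow_mul, mul_comm]
      rw [hlx, hly, mul_one] at h3
      exact h3.symm
    by_contra hne
    have h3 : Units.mk0 (v (p : FF X)) hpu = 1 := (IsMulTorsionFree.zpow_eq_one_iff_left hne).mp h2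
    have h4 : v (p : FF X) = 1 := congrArg Units.val h3
    exact hvp.ne h4

end Pool.Agent.CITTrans
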