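import Mathlib

set_option autoImplicit false

namespace Pool.Agent.CITTrans

/-- The vectors of `p`-adic valuations of `g`, for the primes `p > P₀`, are not covered by any
`N` rational hyperplanes through the origin. -/
def Spread {n : ℕ} (N P₀ : ℕ) (g : Fin n → ℚ) : Prop :=
  ∀ Λ : Finset (Fin n → ℤ), Λ.card ≤ N → (∀ l ∈ Λ, l ≠ 0) →
    ∃ p : ℕ, p.Prime ∧ P₀ < p ∧ ∀ l ∈ Λ, ∑ i, l i * padicValRat p (g i) ≠ 0

/-- `W` has no atypical subvariety: for every torsion coset `T` of a subtorus and every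
irreducible `X` in the intersection of `W` and `T`, it is not the case that
`dim X > dim W + dim T - n`. -/
def NoAtypical {n : ℕ} (W : Set (Fin n → ℂ)) : Prop :=
  ∀ (M : Submodule ℤ (Fin n → ℤ)) (η : Fin n → ℂ) (T : Set (Fin n → ℂ)),
    (∀ a : Fin n → ℤ, ∀ m : ℤ, m ≠ 0 → m • a ∈ M → a ∈ M) →
    (∃ m : ℕ, 0 < m ∧ ∀ i, η i ^ m = 1) →
    T = {y : Fin n → ℂ | (∀ i, y i ≠ 0) ∧
          ∀ a ∈ M, ∏ i, y i ^ a i = ∏ i, η i ^ a i} →
    ∀ X : Set (Fin n → ℂ), X ⊆ W → X ⊆ T →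
      (⨅ x ∈ X, RingHom.ker (MvPolynomial.eval x : MvPolynomial (Fin n) ℂ →+* ℂ)).IsPrime →
      ¬ (ringKrullDim (MvPolynomial (Fin n) ℂ ⧸
          (⨅ x ∈ W, RingHom.ker (MvPolynomial.eval x : MvPolynomial (Fin n) ℂ →+* ℂ)))
        + ringKrullDim (MvPolynomial (Fin n) ℂ ⧸
          (⨅ x ∈ T, RingHom.ker (MvPolynomial.eval x : MvPolynomial (Fin n) ℂ →+* ℂ)))
        < ringKrullDim (MvPolynomial (Fin n) ℂ ⧸
          (⨅ x ∈ X, RingHom.ker (MvPolynomial.eval x : MvPolynomial (Fin n) ℂ →+* ℂ)))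
          + (n : WithBot ℕ∞))

end Pool.Agent.CITTrans
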