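import Mathlib

set_option autoImplicit false

/-!
Dimension theory of finitely generated algebras over a field: Krull dimension and algebraically
independent elements.
-/

namespace Pool.Agent.CITTrans

open Ideal

/-- Krull dimension is invariant under injective integral extensions. -/
theorem ringKrullDim_eq_of_integral (R S : Type*) [CommRing R] [CommRing S] [Algebra R S]
    [Algebra.IsIntegral R S] (hinj : Function.Injective (algebraMap R S)) :
    ringKrullDim S = ringKrullDim R := by
  refine le_antisymm ?_ ?_
  · refine Order.krullDim_le_of_strictMono (PrimeSpectrum.comap (algebraMap R S)) ?_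
    intro P Q hPQ
    have := Ideal.IsIntegral.comap_lt_comap (R := R) (A := S) (I := P.asIdeal) (J := Q.asIdeal) hPQ
    exact this
  · refine iSup_le fun l => ?_
    have : FaithfulSMul R S := (faithfulSMul_iff_algebraMap_injective R S).mpr hinj
    obtain ⟨P, hP⟩ := Algebra.IsIntegral.comap_surjective R S (RelSeries.head l)
    have hlo : P.asIdeal.LiesOver (RelSeries.head l).asIdeal := ⟨by rw [← hP]; rfl⟩
    obtain ⟨L, hL, _, _⟩ := Ideal.exists_ltSeries_of_hasGoingUp l P.asIdeal
    have := Order.LTSeries.length_le_krullDim L
    rw [hL] at this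
    exact this

/-- Noether normalisation and Krull dimension. -/
theorem exists_noether (k A : Type*) [Field k] [CommRing A] [Nontrivial A] [Algebra k A]
    [Algebra.FiniteType k A] :
    ∃ (s : ℕ) (g : MvPolynomial (Fin s) k →ₐ[k] A), Function.Injective g ∧ g.IsIntegral ∧
      ringKrullDim A = s := by
  obtain ⟨s, g, hinj, hint⟩ := exists_integral_inj_algHom_of_fg k A
  refine ⟨s, g, hinj, hint, ?_⟩
  algebraize [g.toRingHom]
  have := ringKrullDim_eq_of_integral (MvPolynomial (Fin s) k) A hinj
  rw [this, MvPolynomial.ringKrullDim_of_isNoetherianRing]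
  simp

/-- For a finitely generated domain over a field, Krull dimension is the transcendence degree. -/
theorem ringKrullDim_eq_trdeg (k A : Type*) [Field k] [CommRing A] [IsDomain A] [Algebra k A]
    [Algebra.FiniteType k A] :
    ∃ s : ℕ, ringKrullDim A = s ∧ Algebra.trdeg k A = s := by
  obtain ⟨s, g, hinj, hint, hdim⟩ := exists_noether k A
  refine ⟨s, hdim, ?_⟩
  have hx : AlgebraicIndependent k (fun i : Fin s => g (MvPolynomial.X i)) := by
    rw [algebraicIndependent_iff_injective_aeval]
    have : (MvPolynomial.aeval (fun i : Fin s => g (MvPolynomial.X i)) :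
        MvPolynomial (Fin s) k →ₐ[k] A) = g := by
      ext i
      simp
    rw [this]
    exact hinj
  have hb : IsTranscendenceBasis k (fun i : Fin s => g (MvPolynomial.X i)) := by
    rw [isTranscendenceBasis_iff_algebraicIndependent_isAlgebraic]
    refine ⟨hx, ⟨fun a => ?_⟩⟩
    have hi : g.toRingHom.IsIntegralElem a := hint a
    obtain ⟨p, hp, hpa⟩ := hi
    have hmem : ∀ q : MvPolynomial (Fin s) k,
        g q ∈ Algebra.adjoin k (Set.range fun i : Fin s => g (MvPolynomial.X i)) := by
      intro q
      have : g = MvPolynomial.aeval (fun i : Fin s => g (MvPolynomial.X i)) := by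
        ext i
        simp
      rw [this, Algebra.adjoin_range_eq_range_aeval]
      exact ⟨q, by simp⟩
    let g' : MvPolynomial (Fin s) k →+*
        Algebra.adjoin k (Set.range fun i : Fin s => g (MvPolynomial.X i)) :=
      g.toRingHom.codRestrict _ hmem
    refine IsIntegral.isAlgebraic ⟨p.map g', hp.map g', ?_⟩
    rw [Polynomial.eval₂_map]
    exact hpa
  have := hb.lift_cardinalMk_eq_trdeg
  simpa using this.symm

/-- Algebraically independent elements of a finitely generated algebra bound its dimension. -/
theorem card_le_ringKrullDim (k A : Type*) [Field k] [CommRing A] [Algebra k A]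
    [Algebra.FiniteType k A] {ι : Type} [Fintype ι] (x : ι → A) (hx : AlgebraicIndependent k x) :
    (Fintype.card ι : WithBot ℕ∞) ≤ ringKrullDim A := by
  have hinj : Function.Injective (MvPolynomial.aeval x : MvPolynomial ι k →ₐ[k] A) :=
    algebraicIndependent_iff_injective_aeval.mp hx
  have hmin : (⊥ : Ideal (MvPolynomial ι k)) ∈ minimalPrimes (MvPolynomial ι k) := by
    rw [IsDomain.minimalPrimes_eq_singleton_bot]
    exact Set.mem_singleton _
  obtain ⟨p, hp, hpc⟩ := Ideal.exists_comap_eq_of_mem_minimalPrimes_of_injective
    (f := (MvPolynomial.aeval x : MvPolynomial ι k →ₐ[k] A).toRingHom) hinj ⊥ hmin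
  have hx' : AlgebraicIndependent k (fun i => Ideal.Quotient.mkₐ k p (x i)) := by
    rw [algebraicIndependent_iff_injective_aeval]
    have hcomp : (MvPolynomial.aeval (fun i => Ideal.Quotient.mkₐ k p (x i)) :
        MvPolynomial ι k →ₐ[k] A ⧸ p) = (Ideal.Quotient.mkₐ k p).comp (MvPolynomial.aeval x) := by
      ext i
      simp
    rw [hcomp, injective_iff_map_eq_zero]
    intro q hq
    have : q ∈ Ideal.comap (MvPolynomial.aeval x : MvPolynomial ι k →ₐ[k] A).toRingHom p := by
      rw [Ideal.mem_comap]
      have h2 : Ideal.Quotient.mk p (MvPolynomial.aeval x q) = 0 := hq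
      exact Ideal.Quotient.eq_zero_iff_mem.mp h2
    rw [hpc] at this
    exact this
  obtain ⟨s, hs, ht⟩ := ringKrullDim_eq_trdeg k (A ⧸ p)
  have h1 := hx'.lift_cardinalMk_le_trdeg
  rw [ht] at h1
  have h2 : Fintype.card ι ≤ s := by
    simpa using h1
  calc (Fintype.card ι : WithBot ℕ∞) ≤ (s : WithBot ℕ∞) := by exact_mod_cast h2
    _ = ringKrullDim (A ⧸ p) := hs.symm
    _ ≤ ringKrullDim A := ringKrullDim_quotient_le p

/-- In a finitely generated domain, a maximal algebraically independent set of generators has
as many elements as the dimension. -/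
theorem exists_finset_algebraicIndependent (k A : Type*) [Field k] [CommRing A] [IsDomain A]
    [Algebra k A] {n : ℕ} (y : Fin n → A) (hy : Algebra.adjoin k (Set.range y) = ⊤) :
    ∃ I : Finset (Fin n), ringKrullDim A = I.card ∧
      AlgebraicIndependent k (fun i : I => y i) := by
  have hft : Algebra.FiniteType k A := by
    refine ⟨?_⟩
    rw [← hy]
    exact ⟨(Set.finite_range y).toFinset, by simp⟩
  have halg : Algebra.IsAlgebraic (Algebra.adjoin k (Set.range y)) A := by
    refine ⟨fun a => ?_⟩
    have ha : a ∈ Algebra.adjoin k (Set.range y) := by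
      rw [hy]
      exact Algebra.mem_top
    exact isAlgebraic_algebraMap (⟨a, ha⟩ : Algebra.adjoin k (Set.range y))
  obtain ⟨t, hts, htb⟩ := exists_isTranscendenceBasis_subset (R := k) (Set.range y)
  have hsec : ∀ a : t, ∃ i, y i = a := fun a => hts a.2
  choose f hf using hsec
  have hfinj : Function.Injective f := by
    intro a b hab
    apply Subtype.ext
    rw [← hf a, ← hf b, hab]
  classical
  have hfin : Finite t := Finite.of_injective f hfinj
  have hft' : Fintype t := Fintype.ofFinite t
  refine ⟨Finset.univ.image f, ?_, ?_⟩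
  · obtain ⟨s, hs, ht⟩ := ringKrullDim_eq_trdeg k A
    have h1 := htb.lift_cardinalMk_eq_trdeg
    rw [ht] at h1
    have h2 : Fintype.card t = s := by simpa using h1
    rw [hs, Finset.card_image_of_injective _ hfinj, Finset.card_univ, h2]
  · let e : t ≃ (Finset.univ.image f : Finset (Fin n)) :=
      Equiv.ofBijective (fun a => ⟨f a, Finset.mem_image_of_mem _ (Finset.mem_univ a)⟩) (by
        constructor
        · intro a b hab
          exact hfinj (congrArg Subtype.val hab)
        · rintro ⟨i, hi⟩
          obtain ⟨a, _, ha⟩ := Finset.mem_image.mp hi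
          exact ⟨a, Subtype.ext ha⟩)
    rw [← algebraicIndependent_equiv e]
    have : (fun i : (Finset.univ.image f : Finset (Fin n)) => y i) ∘ e = ((↑) : t → A) := by
      funext a
      exact hf a
    rw [this]
    exact htb.1

end Pool.Agent.CITTrans
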