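import Mathlib

set_option autoImplicit false

/-!
A finitely generated subring of the complex numbers contains the inverses of only finitely many
primes.
-/

namespace Pool.Agent.CITTrans

/-- All large primes are non-units of a finitely generated subring of the complex numbers. -/
theorem exists_prime_bound (S : Finset ℂ) :
    ∃ P₀ : ℕ, ∀ p : ℕ, p.Prime → P₀ < p → ((p : ℂ)⁻¹) ∉ Subring.closure (S : Set ℂ) := by
  classical
  let Q := Algebra.adjoin ℚ (S : Set ℂ)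
  have hft : Algebra.FiniteType ℚ Q :=
    ⟨Subalgebra.fg_top Q |>.mpr (Subalgebra.fg_adjoin_finset S)⟩
  obtain ⟨𝔫, h𝔫⟩ := Ideal.exists_maximal Q
  let _ : Field (Q ⧸ 𝔫) := Ideal.Quotient.field 𝔫
  have hfin : Module.Finite ℚ (Q ⧸ 𝔫) := finite_of_finite_type_of_isJacobsonRing ℚ (Q ⧸ 𝔫)
  let φ : Q →ₐ[ℚ] (Q ⧸ 𝔫) := Ideal.Quotient.mkₐ ℚ 𝔫
  have hmul : ∀ z : Q ⧸ 𝔫, ∃ y : ℤ, y ≠ 0 ∧ IsIntegral ℤ (y • z) := by
    intro z
    have h1 : IsAlgebraic ℚ z := Algebra.IsAlgebraic.isAlgebraic z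
    have h2 : IsAlgebraic ℤ z := (IsFractionRing.isAlgebraic_iff ℤ ℚ (Q ⧸ 𝔫)).mpr h1
    obtain ⟨y, hy, hyz⟩ := h2.exists_integral_multiple
    exact ⟨y, hy, hyz⟩
  choose ℓ hℓ0 hℓ using hmul
  have hSQ : ∀ s ∈ S, s ∈ Q := fun s hs => Algebra.subset_adjoin hs
  let L : ℤ := ∏ s : S, ℓ (φ ⟨s, hSQ s s.2⟩)
  have hL0 : L ≠ 0 := Finset.prod_ne_zero_iff.mpr fun s _ => hℓ0 _
  have hSL : ∀ s (hs : s ∈ S), IsIntegral ℤ ((L : ℤ) • φ ⟨s, hSQ s hs⟩) := by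
    intro s hs
    have : L = (∏ t ∈ Finset.univ.erase (⟨s, hs⟩ : S), ℓ (φ ⟨t, hSQ t t.2⟩)) *
        ℓ (φ ⟨s, hSQ s hs⟩) := by
      simp only [L]
      rw [Finset.prod_erase_mul _ _ (Finset.mem_univ _)]
    rw [this, mul_smul]
    exact (hℓ _).smul _
  -- every element of the closure is integral up to a power of `L`
  have hcl : ∀ z ∈ Subring.closure (S : Set ℂ), ∃ hz : z ∈ Q, ∃ k : ℕ,
      IsIntegral ℤ ((L ^ k : ℤ) • φ ⟨z, hz⟩) := by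
    intro z hz
    induction hz using Subring.closure_induction with
    | mem x hx => exact ⟨hSQ x hx, 1, by simpa using hSL x hx⟩
    | zero =>
      refine ⟨Q.zero_mem, 0, ?_⟩
      have : (⟨0, Q.zero_mem⟩ : Q) = 0 := rfl
      rw [this, map_zero, smul_zero]
      exact isIntegral_zero
    | one =>
      refine ⟨Q.one_mem, 0, ?_⟩
      have : (⟨1, Q.one_mem⟩ : Q) = 1 := rfl
      rw [this, map_one, pow_zero, one_smul]
      exact isIntegral_one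
    | add x y _ _ hx hy =>
      obtain ⟨hx, kx, hkx⟩ := hx
      obtain ⟨hy, ky, hky⟩ := hy
      refine ⟨Q.add_mem hx hy, kx + ky, ?_⟩
      have : (⟨x + y, Q.add_mem hx hy⟩ : Q) = ⟨x, hx⟩ + ⟨y, hy⟩ := rfl
      rw [this, map_add, smul_add]
      refine IsIntegral.add ?_ ?_
      · rw [add_comm kx ky, pow_add, mul_smul]
        exact hkx.smul _
      · rw [pow_add, mul_smul]
        exact hky.smul _
    | neg x _ hx =>
      obtain ⟨hx, kx, hkx⟩ := hx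
      refine ⟨Q.neg_mem hx, kx, ?_⟩
      have : (⟨-x, Q.neg_mem hx⟩ : Q) = -⟨x, hx⟩ := rfl
      rw [this, map_neg, smul_neg]
      exact hkx.neg
    | mul x y _ _ hx hy =>
      obtain ⟨hx, kx, hkx⟩ := hx
      obtain ⟨hy, ky, hky⟩ := hy
      refine ⟨Q.mul_mem hx hy, kx + ky, ?_⟩
      have : (⟨x * y, Q.mul_mem hx hy⟩ : Q) = ⟨x, hx⟩ * ⟨y, hy⟩ := rfl
      rw [this, map_mul, pow_add, mul_smul_mul_comm]
      exact hkx.mul hky
  refine ⟨L.natAbs, fun p hp hpL hmem => ?_⟩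
  obtain ⟨hz, k, hk⟩ := hcl _ hmem
  have hφ : φ ⟨(p : ℂ)⁻¹, hz⟩ = algebraMap ℚ (Q ⧸ 𝔫) ((p : ℚ)⁻¹) := by
    have h1 : (⟨(p : ℂ)⁻¹, hz⟩ : Q) = algebraMap ℚ Q ((p : ℚ)⁻¹) := by
      apply Subtype.ext
      simp
    rw [h1, AlgHom.commutes]
  rw [hφ] at hk
  have h2 : ((L ^ k : ℤ) • algebraMap ℚ (Q ⧸ 𝔫) ((p : ℚ)⁻¹)) =
      algebraMap ℚ (Q ⧸ 𝔫) ((L : ℚ) ^ k * (p : ℚ)⁻¹) := by
    rw [map_mul, zsmul_eq_mul, map_pow, map_intCast, Int.cast_pow]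
  have h3 : IsIntegral ℤ ((L : ℚ) ^ k * (p : ℚ)⁻¹) := by
    have : IsIntegral ℤ (algebraMap ℚ (Q ⧸ 𝔫) ((L : ℚ) ^ k * (p : ℚ)⁻¹)) := by
      rw [← h2]
      exact hk
    exact (isIntegral_algebraMap_iff (algebraMap ℚ (Q ⧸ 𝔫)).injective).mp this
  obtain ⟨m, hm⟩ := (IsIntegrallyClosed.isIntegral_iff (R := ℤ) (K := ℚ)).mp h3
  have hp0 : (p : ℚ) ≠ 0 := by exact_mod_cast hp.ne_zero
  have h4 : (L : ℚ) ^ k = (m : ℚ) * (p : ℚ) := by
    have hm' : (m : ℚ) = (L : ℚ) ^ k * (p : ℚ)⁻¹ := hm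
    rw [hm', mul_assoc, inv_mul_cancel₀ hp0, mul_one]
  have h5 : L ^ k = m * p := by exact_mod_cast h4
  have h6 : (p : ℤ) ∣ L ^ k := ⟨m, by rw [h5, mul_comm]⟩
  have h7 : (p : ℤ) ∣ L := (Nat.prime_iff_prime_int.mp hp).dvd_of_dvd_pow h6
  have h8 : p ∣ L.natAbs := Int.natCast_dvd.mp h7
  exact absurd (Nat.le_of_dvd (Int.natAbs_pos.mpr hL0) h8) (by omega)

end Pool.Agent.CITTrans
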