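import Mathlib

set_option autoImplicit false

/-!
Valuation subrings of a field over the complex numbers which lie above a prime number, at which
given complex numbers and given transcendental elements are integral or units.
-/

namespace Pool.Agent.CITTrans

open MvPolynomial

/-- Existence of a valuation ring over a prime with prescribed units. -/
theorem exists_valuationSubring {K : Type} [Field K] [Algebra ℂ K] {ι : Type} [Fintype ι]
    (t : ι → K) (ht : AlgebraicIndependent ℂ t) (S : Set ℂ) (p : ℕ) (hp : p.Prime)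
    (hS : ((p : ℂ)⁻¹) ∉ Subring.closure S) :
    ∃ B : ValuationSubring K, (∀ s ∈ S, algebraMap ℂ K s ∈ B) ∧
      (∀ i, t i ∈ B ∧ (t i)⁻¹ ∈ B) ∧ (p : K) ∈ B.nonunits := by
  classical
  let R₀ := Subring.closure S
  let ψ : MvPolynomial ι R₀ →+* K :=
    (aeval t : MvPolynomial ι ℂ →ₐ[ℂ] K).toRingHom.comp (MvPolynomial.map R₀.subtype)
  have hψinj : Function.Injective ψ := by
    refine Function.Injective.comp (g := (aeval t : MvPolynomial ι ℂ →ₐ[ℂ] K)) ?_ ?_
    · exact algebraicIndependent_iff_injective_aeval.mp ht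
    · exact MvPolynomial.map_injective _ Subtype.val_injective
  have hψX : ∀ i, ψ (X i) = t i := by
    intro i
    simp [ψ]
  have hψC : ∀ a : R₀, ψ (C a) = algebraMap ℂ K a := by
    intro a
    simp [ψ]
  let U : MvPolynomial ι R₀ := ∏ i, X i
  let u : K := ∏ i, t i
  have hψU : ψ U = u := by
    simp only [U, u, map_prod, hψX]
  have ht0 : ∀ i, t i ≠ 0 := fun i => ht.ne_zero i
  let B' : Subring K :=
    { carrier := {z | ∃ (k : ℕ) (H : MvPolynomial ι R₀), z * u ^ k = ψ H}
      zero_mem' := ⟨0, 0, by simp⟩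
      one_mem' := ⟨0, 1, by simp⟩
      add_mem' := by
        rintro z w ⟨k, H, hk⟩ ⟨l, G, hl⟩
        refine ⟨k + l, H * U ^ l + G * U ^ k, ?_⟩
        rw [map_add, map_mul, map_mul, map_pow, map_pow, hψU, ← hk, ← hl]
        ring
      neg_mem' := by
        rintro z ⟨k, H, hk⟩
        refine ⟨k, -H, ?_⟩
        rw [map_neg, ← hk]
        ring
      mul_mem' := by
        rintro z w ⟨k, H, hk⟩ ⟨l, G, hl⟩
        refine ⟨k + l, H * G, ?_⟩
        rw [map_mul, ← hk, ← hl]
        ring }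
  have hpB : (p : K) ∈ B' := natCast_mem B' p
  have hI : Ideal.span {(⟨p, hpB⟩ : B')} ≠ ⊤ := by
    intro htop
    rw [Ideal.span_singleton_eq_top] at htop
    obtain ⟨⟨b, hb⟩, hpb⟩ := isUnit_iff_exists_inv.mp htop
    have hpb' : (p : K) * b = 1 := congrArg Subtype.val hpb
    obtain ⟨k, H, hk⟩ := hb
    have h1 : ψ (U ^ k) = ψ ((p : MvPolynomial ι R₀) * H) := by
      rw [map_pow, hψU, map_mul, map_natCast, ← hk, ← mul_assoc, hpb', one_mul]
    have h2 := hψinj h1
    have h3 := congrArg (MvPolynomial.eval (fun _ : ι => (1 : R₀))) h2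
    rw [map_pow, map_mul, map_natCast] at h3
    have h4 : MvPolynomial.eval (fun _ : ι => (1 : R₀)) U = 1 := by
      simp [U]
    rw [h4, one_pow] at h3
    have h5 : (1 : ℂ) = (p : ℂ) * ((MvPolynomial.eval (fun _ : ι => (1 : R₀)) H : R₀) : ℂ) := by
      have := congrArg (Subtype.val : R₀ → ℂ) h3
      simpa using this
    have hp0 : (p : ℂ) ≠ 0 := by exact_mod_cast hp.ne_zero
    have h6 : ((p : ℂ)⁻¹) = ((MvPolynomial.eval (fun _ : ι => (1 : R₀)) H : R₀) : ℂ) := by
      rw [inv_eq_iff_eq_inv, eq_comm, inv_eq_of_mul_eq_one_left h5.symm]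
    exact hS (h6 ▸ Subtype.property _)
  obtain ⟨B, hB, hBI⟩ := Ideal.image_subset_nonunits_valuationSubring _ hI
  refine ⟨B, ?_, ?_, ?_⟩
  · intro s hs
    refine hB ⟨0, C ⟨s, Subring.subset_closure hs⟩, ?_⟩
    rw [hψC]
    simp
  · intro i
    refine ⟨hB ⟨0, X i, ?_⟩, hB ⟨1, ∏ j ∈ Finset.univ.erase i, X j, ?_⟩⟩
    · rw [hψX]
      simp
    · rw [map_prod, pow_one]
      simp only [hψX, u]
      rw [← Finset.mul_prod_erase Finset.univ t (Finset.mem_univ i), ← mul_assoc,
        inv_mul_cancel₀ (ht0 i), one_mul]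
  · exact hBI ⟨⟨p, hpB⟩, Ideal.subset_span (Set.mem_singleton _), rfl⟩

end Pool.Agent.CITTrans
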