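import Pool.Agent.CITTrans.Mono
import Pool.Agent.CITTrans.Val
import Pool.Agent.CITTrans.Primes

set_option autoImplicit false

/-!
Generic points of irreducible sets of points.
-/

namespace Pool.Agent.CITTrans

open Module

/-- Polynomial relations between any `r + 1` coordinates on a set of dimension `r`. -/
theorem exists_dep {n : ℕ} (V : Set (Fin n → ℂ)) (r : ℕ)
    (hr : ringKrullDim (MvPolynomial (Fin n) ℂ ⧸ vanI V) = r) (K : Finset (Fin n))
    (hK : K.card = r + 1) :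
    ∃ F ∈ vanI V, F ≠ 0 ∧ ∀ α ∈ F.support, ∀ i, i ∉ K → α i = 0 := by
  classical
  have hdep : ¬ AlgebraicIndependent ℂ
      (fun j : K => Ideal.Quotient.mkₐ ℂ (vanI V) (MvPolynomial.X j.1)) := by
    intro h
    have h1 := card_le_ringKrullDim ℂ _ _ h
    rw [hr, Fintype.card_coe, hK] at h1
    have h2 : r + 1 ≤ r := by exact_mod_cast h1
    omega
  rw [algebraicIndependent_iff] at hdep
  push Not at hdep
  obtain ⟨G, hG, hG0⟩ := hdep
  refine ⟨MvPolynomial.rename (fun j : K => j.1) G, ?_, ?_, ?_⟩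
  · have h1 : MvPolynomial.aeval
        (fun j : K => Ideal.Quotient.mkₐ ℂ (vanI V) (MvPolynomial.X j.1)) G =
        Ideal.Quotient.mkₐ ℂ (vanI V) (MvPolynomial.rename (fun j : K => j.1) G) := by
      have : (MvPolynomial.aeval
          (fun j : K => Ideal.Quotient.mkₐ ℂ (vanI V) (MvPolynomial.X j.1)) :
            MvPolynomial K ℂ →ₐ[ℂ] MvPolynomial (Fin n) ℂ ⧸ vanI V) =
          (Ideal.Quotient.mkₐ ℂ (vanI V)).comp (MvPolynomial.rename (fun j : K => j.1)) := by
        ext j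
        simp
      rw [this]
      rfl
    rw [h1] at hG
    exact Ideal.Quotient.eq_zero_iff_mem.mp hG
  · intro h
    apply hG0
    exact MvPolynomial.rename_injective _ Subtype.val_injective (by rw [h, map_zero])
  · intro α hα i hi
    rw [MvPolynomial.support_rename_of_injective Subtype.val_injective] at hα
    obtain ⟨β, _, rfl⟩ := Finset.mem_image.mp hα
    refine Finsupp.mapDomain_of_notMem_range β i ?_
    rintro ⟨j, rfl⟩
    exact hi j.2

section Generic

variable {n : ℕ} (X : Set (Fin n → ℂ)) [hX : (vanI X).IsPrime]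

/-- The function field. -/
abbrev FF : Type := FractionRing (MvPolynomial (Fin n) ℂ ⧸ vanI X)

/-- The coordinates of the generic point. -/
noncomputable def gen (i : Fin n) : FF X :=
  algebraMap (MvPolynomial (Fin n) ℂ ⧸ vanI X) (FF X)
    (Ideal.Quotient.mkₐ ℂ (vanI X) (MvPolynomial.X i))

omit hX in
theorem aeval_gen (F : MvPolynomial (Fin n) ℂ) :
    MvPolynomial.aeval (gen X) F = algebraMap (MvPolynomial (Fin n) ℂ ⧸ vanI X) (FF X)
      (Ideal.Quotient.mkₐ ℂ (vanI X) F) := by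
  have : (MvPolynomial.aeval (gen X) : MvPolynomial (Fin n) ℂ →ₐ[ℂ] FF X) =
      (IsScalarTower.toAlgHom ℂ (MvPolynomial (Fin n) ℂ ⧸ vanI X) (FF X)).comp
        (Ideal.Quotient.mkₐ ℂ (vanI X)) := by
    ext i
    simp [gen]
  rw [this]
  rfl

theorem aeval_gen_eq_zero_iff (F : MvPolynomial (Fin n) ℂ) :
    MvPolynomial.aeval (gen X) F = 0 ↔ F ∈ vanI X := by
  rw [aeval_gen]
  rw [FaithfulSMul.algebraMap_eq_zero_iff]
  exact Ideal.Quotient.eq_zero_iff_mem

theorem exists_mem_of_prime : ∃ x, x ∈ X := by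
  by_contra h
  push Not at h
  apply hX.ne_top
  rw [Ideal.eq_top_iff_one, mem_vanI]
  intro x hx
  exact absurd hx (h x)

theorem gen_ne_zero (h0 : ∀ x ∈ X, ∀ i, x i ≠ 0) (i : Fin n) : gen X i ≠ 0 := by
  intro h
  have h1 : MvPolynomial.aeval (gen X) (MvPolynomial.X i : MvPolynomial (Fin n) ℂ) = 0 := by
    rw [MvPolynomial.aeval_X, h]
  rw [aeval_gen_eq_zero_iff, mem_vanI] at h1
  obtain ⟨x, hx⟩ := exists_mem_of_prime X
  have h2 := h1 x hx
  rw [MvPolynomial.eval_X] at h2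
  exact h0 x hx i h2

theorem zpow_prod_eq {ι G : Type*} [Fintype ι] [CommGroupWithZero G] (z : ι → G)
    (hz : ∀ i, z i ≠ 0) (a : ι → ℤ) :
    ∏ i, z i ^ a i = (∏ i, z i ^ (a i).toNat) / ∏ i, z i ^ (-a i).toNat := by
  rw [← Finset.prod_div_distrib]
  refine Finset.prod_congr rfl fun i _ => ?_
  have h : a i = ((a i).toNat : ℤ) - ((-a i).toNat : ℤ) := (Int.toNat_sub_toNat_neg (a i)).symm
  conv_lhs => rw [h]
  rw [zpow_sub₀ (hz i), zpow_natCast, zpow_natCast]

theorem gen_prod_eq (h0 : ∀ x ∈ X, ∀ i, x i ≠ 0) (a : Fin n → ℤ) (c : ℂ)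
    (hc : ∀ x ∈ X, ∏ i, x i ^ a i = c) :
    ∏ i, gen X i ^ a i = algebraMap ℂ (FF X) c := by
  have h1 : (∏ i, (MvPolynomial.X i : MvPolynomial (Fin n) ℂ) ^ (a i).toNat) -
      MvPolynomial.C c * ∏ i, MvPolynomial.X i ^ (-a i).toNat ∈ vanI X := by
    rw [mem_vanI]
    intro x hx
    simp only [map_sub, map_mul, map_prod, map_pow, MvPolynomial.eval_X, MvPolynomial.eval_C]
    have h2 := hc x hx
    rw [zpow_prod_eq x (h0 x hx)] at h2
    have h3 : ∏ i, x i ^ (-a i).toNat ≠ 0 :=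
      Finset.prod_ne_zero_iff.mpr fun i _ => pow_ne_zero _ (h0 x hx i)
    rw [div_eq_iff h3] at h2
    rw [h2, sub_self]
  rw [← aeval_gen_eq_zero_iff] at h1
  simp only [map_sub, map_mul, map_prod, map_pow, MvPolynomial.aeval_X,
    MvPolynomial.aeval_C] at h1
  have h4 : ∏ i, gen X i ^ (-a i).toNat ≠ 0 :=
    Finset.prod_ne_zero_iff.mpr fun i _ => pow_ne_zero _ (gen_ne_zero X h0 i)
  rw [zpow_prod_eq _ (gen_ne_zero X h0), div_eq_iff h4]
  exact sub_eq_zero.mp h1

/-- A maximal algebraically independent set of coordinates of the generic point. -/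
theorem exists_indep_coords :
    ∃ I : Finset (Fin n), ringKrullDim (MvPolynomial (Fin n) ℂ ⧸ vanI X) = I.card ∧
      AlgebraicIndependent ℂ (fun i : I => gen X i) := by
  have hadj : Algebra.adjoin ℂ (Set.range fun i : Fin n =>
      Ideal.Quotient.mkₐ ℂ (vanI X) (MvPolynomial.X i)) = ⊤ := by
    rw [Algebra.adjoin_range_eq_range_aeval]
    have : (MvPolynomial.aeval fun i : Fin n =>
        Ideal.Quotient.mkₐ ℂ (vanI X) (MvPolynomial.X i) :
          MvPolynomial (Fin n) ℂ →ₐ[ℂ] MvPolynomial (Fin n) ℂ ⧸ vanI X) =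
        Ideal.Quotient.mkₐ ℂ (vanI X) := by
      ext i
      simp
    rw [this, AlgHom.range_eq_top]
    exact Ideal.Quotient.mkₐ_surjective ℂ (vanI X)
  obtain ⟨I, hI, hind⟩ := exists_finset_algebraicIndependent ℂ _ _ hadj
  refine ⟨I, hI, ?_⟩
  have := hind.map' (f := IsScalarTower.toAlgHom ℂ (MvPolynomial (Fin n) ℂ ⧸ vanI X) (FF X))
    (FaithfulSMul.algebraMap_injective (MvPolynomial (Fin n) ℂ ⧸ vanI X) (FF X))
  exact this

/-- No monomial in algebraically independent coordinates is constant. -/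
theorem eq_zero_of_indep (I : Finset (Fin n))
    (hI : AlgebraicIndependent ℂ (fun i : I => gen X i)) (h0 : ∀ x ∈ X, ∀ i, x i ≠ 0)
    (a : Fin n → ℤ) (ha : ∀ i, i ∉ I → a i = 0) (c : ℂ)
    (hc : ∏ i, gen X i ^ a i = algebraMap ℂ (FF X) c) : a = 0 := by
  classical
  have hgen := gen_ne_zero X h0
  have h1 : ∏ i, gen X i ^ a i = ∏ i : I, gen X i ^ a i := by
    rw [Finset.prod_coe_sort I (fun i => gen X i ^ a i)]
    exact (Finset.prod_subset (Finset.subset_univ I)
      (fun i _ hi => by rw [ha i hi, zpow_zero])).symm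
  have h2 : ∏ i : I, gen X i ^ (-a i).toNat ≠ 0 :=
    Finset.prod_ne_zero_iff.mpr fun i _ => pow_ne_zero _ (hgen i)
  rw [h1, zpow_prod_eq _ (fun i : I => hgen i), div_eq_iff h2] at hc
  let sp : I →₀ ℕ := Finsupp.equivFunOnFinite.symm (fun i => (a i).toNat)
  let sm : I →₀ ℕ := Finsupp.equivFunOnFinite.symm (fun i => (-a i).toNat)
  have h3 : MvPolynomial.monomial sp (1 : ℂ) - MvPolynomial.monomial sm c = 0 := by
    apply hI.eq_zero_of_aeval_eq_zero
    rw [map_sub, MvPolynomial.aeval_monomial, MvPolynomial.aeval_monomial,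
      Finsupp.prod_fintype _ _ (fun _ => pow_zero _), Finsupp.prod_fintype _ _ (fun _ => pow_zero _),
      map_one, one_mul]
    exact sub_eq_zero.mpr hc
  have h4 := sub_eq_zero.mp h3
  rw [MvPolynomial.monomial_eq_monomial_iff] at h4
  rcases h4 with ⟨h5, _⟩ | ⟨h5, _⟩
  · funext i
    by_cases hi : i ∈ I
    · have h6 := DFunLike.congr_fun h5 (⟨i, hi⟩ : I)
      have h7 : (a i).toNat = (-a i).toNat := h6
      simp only [Pi.zero_apply]
      omega
    · exact ha i hi
  · exact absurd h5 one_ne_zero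

end Generic

end Pool.Agent.CITTrans
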