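import Pool.Agent.CITTrans.Torus

set_option autoImplicit false

/-!
Lower bound for the dimension of the common zero set, in the torus, of `k` polynomials.
-/

namespace Pool.Agent.CITTrans

open MvPolynomial

/-- The maximal ideal of a point has height `n`. -/
theorem height_point {n : ℕ} (x : Fin n → ℂ) :
    (RingHom.ker (MvPolynomial.eval x : MvPolynomial (Fin n) ℂ →+* ℂ)).height = n := by
  have hdim : ringKrullDim (MvPolynomial (Fin n) ℂ) = n := by
    rw [MvPolynomial.ringKrullDim_of_isNoetherianRing]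
    simp
  have hfin : FiniteRingKrullDim (MvPolynomial (Fin n) ℂ) := by
    rw [finiteRingKrullDim_iff_ne_bot_and_top, hdim]
    constructor
    · exact WithBot.natCast_ne_bot n
    · exact fun h => by
        have : ((n : ℕ∞) : WithBot ℕ∞) = ((⊤ : ℕ∞) : WithBot ℕ∞) := h
        exact (ENat.natCast_ne_top n) (WithBot.coe_injective this)
  obtain ⟨p, hp, hph⟩ := Ideal.exists_isMaximal_height (R := MvPolynomial (Fin n) ℂ)
  obtain ⟨y, hy⟩ := MvPolynomial.isMaximal_iff_eq_vanishingIdeal_singleton.mp hp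
  let φ : MvPolynomial (Fin n) ℂ →ₐ[ℂ] MvPolynomial (Fin n) ℂ :=
    MvPolynomial.aeval (fun i => MvPolynomial.X i + MvPolynomial.C (x i - y i))
  let ψ : MvPolynomial (Fin n) ℂ →ₐ[ℂ] MvPolynomial (Fin n) ℂ :=
    MvPolynomial.aeval (fun i => MvPolynomial.X i - MvPolynomial.C (x i - y i))
  let e : MvPolynomial (Fin n) ℂ ≃ₐ[ℂ] MvPolynomial (Fin n) ℂ := AlgEquiv.ofAlgHom φ ψ
    (by
      ext i : 1
      simp only [φ, ψ, AlgHom.coe_comp, Function.comp_apply, MvPolynomial.aeval_X, map_sub,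
        MvPolynomial.algHom_C, MvPolynomial.algebraMap_eq, AlgHom.coe_id, id_eq]
      ring)
    (by
      ext i : 1
      simp only [φ, ψ, AlgHom.coe_comp, Function.comp_apply, MvPolynomial.aeval_X, map_add,
        map_sub, MvPolynomial.algHom_C, MvPolynomial.algebraMap_eq, AlgHom.coe_id, id_eq]
      ring)
  have hcomap : p.comap e.toRingEquiv =
      RingHom.ker (MvPolynomial.eval x : MvPolynomial (Fin n) ℂ →+* ℂ) := by
    ext G
    rw [Ideal.mem_comap, hy, MvPolynomial.mem_vanishingIdeal_singleton_iff, RingHom.mem_ker]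
    have h3 : (MvPolynomial.aeval y : MvPolynomial (Fin n) ℂ →ₐ[ℂ] ℂ).comp φ =
        MvPolynomial.aeval x := by
      ext i
      simp [φ]
    have h4 : MvPolynomial.aeval y (e.toRingEquiv G) = MvPolynomial.eval x G :=
      DFunLike.congr_fun h3 G
    rw [h4]
  rw [← hcomap, RingEquiv.height_comap]
  rw [hdim] at hph
  exact WithBot.coe_injective hph

/-- Krull's height theorem at a point: if every prime between the equations and the point
contains `P`, then the dimension at `P` is at least `n - k`. -/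
theorem krull_lower_aux {n k : ℕ} (F : Fin k → MvPolynomial (Fin n) ℂ)
    (P : Ideal (MvPolynomial (Fin n) ℂ)) (x : Fin n → ℂ)
    (hxF : ∀ j, MvPolynomial.eval x (F j) = 0)
    (hkey : ∀ q : Ideal (MvPolynomial (Fin n) ℂ), q.IsPrime → Ideal.span (Set.range F) ≤ q →
      q ≤ RingHom.ker (MvPolynomial.eval x : MvPolynomial (Fin n) ℂ →+* ℂ) → P ≤ q) :
    (n : WithBot ℕ∞) ≤ ringKrullDim (MvPolynomial (Fin n) ℂ ⧸ P) + (k : WithBot ℕ∞) := by
  set s : Set (MvPolynomial (Fin n) ℂ) := Set.range F with hs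
  set m := RingHom.ker (MvPolynomial.eval x : MvPolynomial (Fin n) ℂ →+* ℂ) with hm
  have hmp : m.IsPrime := RingHom.ker_isPrime _
  have hsm : s ⊆ m := by
    rintro _ ⟨j, rfl⟩
    exact hxF j
  have h1 := Ideal.height_le_height_add_encard_of_subset s hsm
  rw [height_point] at h1
  set Q := m.map (Ideal.Quotient.mk (Ideal.span s)) with hQ
  have hspm : Ideal.span s ≤ m := Ideal.span_le.mpr hsm
  have hQp : Q.IsPrime := Ideal.isPrime_map_quotientMk_of_isPrime hspm
  have hcomapQ : Q.comap (Ideal.Quotient.mk (Ideal.span s)) = m := by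
    rw [hQ, Ideal.comap_map_of_surjective _ Ideal.Quotient.mk_surjective]
    rw [← RingHom.ker_eq_comap_bot, Ideal.mk_ker]
    exact sup_eq_left.mpr hspm
  have h2 : (Q.height : WithBot ℕ∞) ≤ ringKrullDim (MvPolynomial (Fin n) ℂ ⧸ P) := by
    have h3 : Q.height = Order.height (⟨Q, hQp⟩ : PrimeSpectrum _) :=
      PrimeSpectrum.height_eq_orderHeight ⟨Q, hQp⟩
    rw [h3, Order.height_eq_krullDim_Iic]
    let e1 := (Ideal.span s).primeSpectrumQuotientOrderIsoZeroLocus
    let e2 := P.primeSpectrumQuotientOrderIsoZeroLocus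
    have hmem : ∀ q : Set.Iic (⟨Q, hQp⟩ : PrimeSpectrum (MvPolynomial (Fin n) ℂ ⧸ Ideal.span s)),
        (e1 q.1).1 ∈ PrimeSpectrum.zeroLocus (P : Set (MvPolynomial (Fin n) ℂ)) := by
      intro q
      rw [PrimeSpectrum.mem_zeroLocus]
      refine hkey _ (e1 q.1).1.isPrime ?_ ?_
      · exact (PrimeSpectrum.mem_zeroLocus _ _).mp (e1 q.1).2
      · have h4 : q.1.asIdeal ≤ Q := q.2
        have h5 := Ideal.comap_mono (f := Ideal.Quotient.mk (Ideal.span s)) h4
        rw [hcomapQ] at h5
        exact h5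
    refine Order.krullDim_le_of_strictMono (fun q => e2.symm ⟨(e1 q.1).1, hmem q⟩) ?_
    intro a b hab
    apply e2.symm.strictMono
    have h6 : e1 a.1 < e1 b.1 := e1.strictMono hab
    exact h6
  have h3 : s.encard ≤ k := by
    rw [hs]
    calc (Set.range F).encard = (F '' Set.univ).encard := by rw [Set.image_univ]
      _ ≤ (Set.univ : Set (Fin k)).encard := Set.encard_image_le _ _
      _ = k := by simp
  calc (n : WithBot ℕ∞) ≤ ((Q.height + s.encard : ℕ∞) : WithBot ℕ∞) := by
        exact_mod_cast h1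
    _ = (Q.height : WithBot ℕ∞) + (s.encard : WithBot ℕ∞) := by push_cast; rfl
    _ ≤ ringKrullDim (MvPolynomial (Fin n) ℂ ⧸ P) + (k : WithBot ℕ∞) := by
        refine add_le_add h2 ?_
        exact_mod_cast h3

/-- A polynomial vanishing at the torus points of the zero locus of an ideal lies, up to a
monomial, in its radical. -/
theorem mul_prod_mem_radical {n : ℕ} (J : Ideal (MvPolynomial (Fin n) ℂ))
    (G : MvPolynomial (Fin n) ℂ)
    (hG : ∀ x : Fin n → ℂ, (∀ i, x i ≠ 0) → (∀ H ∈ J, MvPolynomial.eval x H = 0) →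
      MvPolynomial.eval x G = 0) :
    G * ∏ i, MvPolynomial.X i ∈ J.radical := by
  rw [← MvPolynomial.vanishingIdeal_zeroLocus_eq_radical (K := ℂ),
    MvPolynomial.mem_vanishingIdeal_iff]
  intro y hy
  rw [map_mul, map_prod]
  simp only [MvPolynomial.aeval_X]
  by_cases hy0 : ∀ i, y i ≠ 0
  · have h4 : MvPolynomial.aeval y G = (0 : ℂ) := hG y hy0 (fun H hH => hy H hH)
    rw [h4, zero_mul]
  · push Not at hy0
    obtain ⟨i, hi⟩ := hy0
    rw [Finset.prod_eq_zero (Finset.mem_univ i) hi, mul_zero]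

/-- Every irreducible component of the set of common zeros in the torus of `k` polynomials has
dimension at least `n - k`. -/
theorem krull_lower {n k : ℕ} (F : Fin k → MvPolynomial (Fin n) ℂ) (V W : Set (Fin n → ℂ))
    (hV : V = {x | (∀ i, x i ≠ 0) ∧ ∀ j, MvPolynomial.eval x (F j) = 0})
    (hW : W ⊆ V) (hWp : (vanI W).IsPrime)
    (hmax : ∀ W' : Set (Fin n → ℂ), W ⊆ W' → W' ⊆ V → (vanI W').IsPrime → W' = W) :
    (n : WithBot ℕ∞) ≤ ringKrullDim (MvPolynomial (Fin n) ℂ ⧸ vanI W) + (k : WithBot ℕ∞) := by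
  classical
  set J := Ideal.span (Set.range F) with hJ
  have hW0 : ∀ x ∈ W, ∀ i, x i ≠ 0 := fun x hx => by
    have := hW hx
    rw [hV] at this
    exact this.1
  have hWF : ∀ x ∈ W, ∀ j, MvPolynomial.eval x (F j) = 0 := fun x hx => by
    have := hW hx
    rw [hV] at this
    exact this.2
  have hWne : ∃ x, x ∈ W := by
    by_contra h
    push Not at h
    apply hWp.ne_top
    rw [Ideal.eq_top_iff_one, mem_vanI]
    intro x hx
    exact absurd hx (h x)
  have hprodW : ∏ i, (MvPolynomial.X i : MvPolynomial (Fin n) ℂ) ∉ vanI W := by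
    intro h
    obtain ⟨x, hx⟩ := hWne
    have h2 := mem_vanI.mp h x hx
    rw [map_prod] at h2
    simp only [MvPolynomial.eval_X] at h2
    exact Finset.prod_ne_zero_iff.mpr (fun i _ => hW0 x hx i) h2
  have hJW : J ≤ vanI W := by
    rw [hJ, Ideal.span_le]
    rintro _ ⟨j, rfl⟩
    exact mem_vanI.mpr fun x hx => hWF x hx j
  -- the vanishing ideal is a minimal prime
  have hmin : ∀ q : Ideal (MvPolynomial (Fin n) ℂ), q.IsPrime → J ≤ q → q ≤ vanI W →
      q = vanI W := by
    intro q hq hJq hqW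
    let W' : Set (Fin n → ℂ) := {x | (∀ i, x i ≠ 0) ∧ ∀ H ∈ q, MvPolynomial.eval x H = 0}
    have h1 : W ⊆ W' := fun x hx => ⟨hW0 x hx, fun H hH => mem_vanI.mp (hqW hH) x hx⟩
    have h2 : W' ⊆ V := by
      intro x hx
      rw [hV]
      exact ⟨hx.1, fun j => hx.2 _ (hJq (Ideal.subset_span ⟨j, rfl⟩))⟩
    have h3 : vanI W' = q := by
      refine le_antisymm ?_ ?_
      · intro G hG
        have h4 := mul_prod_mem_radical q G (fun x hx0 hxq => mem_vanI.mp hG x ⟨hx0, hxq⟩)
        rw [hq.radical] at h4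
        rcases hq.mem_or_mem h4 with h | h
        · exact h
        · exact absurd (hqW h) hprodW
      · intro G hG
        exact mem_vanI.mpr fun x hx => hx.2 G hG
    have h4 := hmax W' h1 h2 (h3 ▸ hq)
    rw [← h4, h3]
  have hWmin : vanI W ∈ J.minimalPrimes := by
    obtain ⟨p, hp, hpW⟩ := Ideal.exists_minimalPrimes_le hJW
    have := hmin p hp.isPrime hp.le hpW
    rwa [← this]
  -- a polynomial in all the other minimal primes
  have hfin : (J.minimalPrimes).Finite := Ideal.finite_minimalPrimes_of_isNoetherianRing _ J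
  let S := hfin.toFinset.erase (vanI W)
  have hex : ∃ G, G ∉ vanI W ∧ ∀ q ∈ J.minimalPrimes, q ≠ vanI W → G ∈ q := by
    have h1 : ∀ q ∈ S, ∃ G, G ∈ q ∧ G ∉ vanI W := by
      intro q hq
      rw [Finset.mem_erase, Set.Finite.mem_toFinset] at hq
      by_contra hcon
      push Not at hcon
      have h2 : q ≤ vanI W := fun G hG => hcon G hG
      exact hq.1 (hmin q hq.2.isPrime hq.2.le h2)
    choose! G hG hG' using h1
    refine ⟨∏ q ∈ S, G q, ?_, ?_⟩
    · intro h
      obtain ⟨q, hq, hqG⟩ := hWp.prod_mem_iff.mp h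
      exact hG' q hq hqG
    · intro q hq hne
      have h2 : q ∈ S := by
        rw [Finset.mem_erase, Set.Finite.mem_toFinset]
        exact ⟨hne, hq⟩
      exact Ideal.mem_of_dvd q (Finset.dvd_prod_of_mem G h2) (hG q h2)
  obtain ⟨G, hGW, hGq⟩ := hex
  have hpt : ∃ x ∈ W, MvPolynomial.eval x G ≠ 0 := by
    by_contra h
    push Not at h
    exact hGW (mem_vanI.mpr h)
  obtain ⟨x, hxW, hxG⟩ := hpt
  refine krull_lower_aux F (vanI W) x (hWF x hxW) ?_
  intro q hq hJq hqm
  obtain ⟨p, hp, hpq⟩ := Ideal.exists_minimalPrimes_le hJq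
  by_cases h : p = vanI W
  · rw [← h]
    exact hpq
  · exfalso
    have h1 := hqm (hpq (hGq p hp h))
    exact hxG (by rwa [RingHom.mem_ker] at h1)

end Pool.Agent.CITTrans
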