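import Pool.Agent.CITTrans.Defs

set_option autoImplicit false

/-!
A residue class of integer vectors with spread out valuation vectors.
-/

namespace Pool.Agent.CITTrans

theorem padicValRat_eq (p : ℕ) (hp : p.Prime) (z : ℤ) (e : ℕ) (h1 : (p : ℤ) ^ e ∣ z)
    (h2 : ¬ (p : ℤ) ^ (e + 1) ∣ z) : padicValRat p (z : ℚ) = e := by
  have : Fact p.Prime := ⟨hp⟩
  have hz : z ≠ 0 := by
    rintro rfl
    exact h2 (dvd_zero _)
  rw [padicValRat.of_int]
  rw [padicValInt_dvd_iff] at h1 h2
  have h3 : e ≤ padicValInt p z := h1.resolve_left hz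
  have h4 : ¬ e + 1 ≤ padicValInt p z := fun h => h2 (Or.inr h)
  have h5 : padicValInt p z = e := by omega
  rw [h5]

/-- Few points of the moment curve lie on a hyperplane. -/
theorem card_moment_le {n : ℕ} (l : Fin n → ℤ) (hl : l ≠ 0) (m : ℕ) :
    ((Finset.range m).filter fun t => ∑ i : Fin n, l i * ((t + 1 : ℕ) : ℤ) ^ (i : ℕ) = 0).card
      ≤ n - 1 := by
  classical
  let P : Polynomial ℤ := ∑ i : Fin n, Polynomial.C (l i) * Polynomial.X ^ (i : ℕ)
  have hcoeff : ∀ i : Fin n, P.coeff i = l i := by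
    intro i
    simp only [P, Polynomial.finsetSum_coeff, Polynomial.coeff_C_mul, Polynomial.coeff_X_pow]
    rw [Finset.sum_eq_single i]
    · simp
    · intro j _ hj
      have : ¬ ((i : ℕ) = (j : ℕ)) := fun h => hj (Fin.ext h.symm)
      simp [this]
    · simp
  have hP : P ≠ 0 := by
    intro h
    apply hl
    funext i
    rw [← hcoeff i, h]
    simp
  have hdeg : P.natDegree ≤ n - 1 := by
    refine Polynomial.natDegree_sum_le_of_forall_le _ _ fun i _ => ?_
    refine (Polynomial.natDegree_C_mul_X_pow_le _ _).trans ?_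
    have := i.2
    omega
  calc _ ≤ P.roots.toFinset.card := by
        refine Finset.card_le_card_of_injOn (fun t => ((t + 1 : ℕ) : ℤ)) ?_ ?_
        · intro t ht
          have h1 := (Finset.mem_filter.mp ht).2
          simp only [Finset.mem_coe, Multiset.mem_toFinset]
          rw [Polynomial.mem_roots hP, Polynomial.IsRoot.def]
          simp only [P, Polynomial.eval_finsetSum, Polynomial.eval_mul, Polynomial.eval_C,
            Polynomial.eval_pow, Polynomial.eval_X]
          exact h1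
        · intro s _ t _ hst
          simp only at hst
          have : s + 1 = t + 1 := by exact_mod_cast hst
          omega
    _ ≤ Multiset.card P.roots := Multiset.toFinset_card_le _
    _ ≤ P.natDegree := Polynomial.card_roots' P
    _ ≤ n - 1 := hdeg

theorem exists_progression (n N P₀ : ℕ) :
    ∃ (Q : ℕ) (a : Fin n → ℤ), 0 < Q ∧ ∀ g : Fin n → ℤ, (∀ i, (Q : ℤ) ∣ g i - a i) →
      (∀ i, g i ≠ 0) ∧ Spread N P₀ (fun i => (g i : ℚ)) := by
  classical
  let q : ℕ → ℕ := fun t => Nat.nth Nat.Prime (P₀ + t)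
  have hq : ∀ t, (q t).Prime := fun t => Nat.prime_nth_prime _
  have hqP : ∀ t, P₀ < q t := fun t => by
    have := Nat.add_two_le_nth_prime (P₀ + t)
    simp only [q]
    omega
  have hqinj : Function.Injective q := by
    intro s t hst
    have := Nat.nth_injective Nat.infinite_setOfPred_prime hst
    omega
  let m := N * (n - 1) + 1
  let E := (m + 1) ^ n + 1
  let Q := ∏ t ∈ Finset.range m, q t ^ E
  let a : Fin n → ℤ := fun i => ∏ t ∈ Finset.range m, (q t : ℤ) ^ ((t + 1) ^ (i : ℕ))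
  have hval : ∀ g : Fin n → ℤ, (∀ i, (Q : ℤ) ∣ g i - a i) → ∀ t ∈ Finset.range m, ∀ i : Fin n,
      ((q t : ℤ) ^ ((t + 1) ^ (i : ℕ)) ∣ g i) ∧
        ¬ ((q t : ℤ) ^ ((t + 1) ^ (i : ℕ) + 1) ∣ g i) := by
    intro g hg t ht i
    have hlt : (t + 1) ^ (i : ℕ) + 1 ≤ E := by
      have h1 : t + 1 ≤ m + 1 := by
        have := Finset.mem_range.mp ht
        omega
      have h2 : (t + 1) ^ (i : ℕ) ≤ (m + 1) ^ n :=
        (Nat.pow_le_pow_left h1 _).trans (Nat.pow_le_pow_right (by omega) i.2.le)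
      simp only [E]
      omega
    have hQ : (q t : ℤ) ^ E ∣ g i - a i := by
      refine dvd_trans ?_ (hg i)
      have h1 : q t ^ E ∣ Q := Finset.dvd_prod_of_mem (fun t => q t ^ E) ht
      exact_mod_cast h1
    have ha : a i = (q t : ℤ) ^ ((t + 1) ^ (i : ℕ)) *
        ∏ s ∈ (Finset.range m).erase t, (q s : ℤ) ^ ((s + 1) ^ (i : ℕ)) :=
      (Finset.mul_prod_erase _ _ ht).symm
    constructor
    · have h1 : (q t : ℤ) ^ ((t + 1) ^ (i : ℕ)) ∣ g i - a i :=
        (pow_dvd_pow _ (by omega)).trans hQ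
      have h2 : (q t : ℤ) ^ ((t + 1) ^ (i : ℕ)) ∣ a i := ⟨_, ha⟩
      have := dvd_add h1 h2
      rwa [sub_add_cancel] at this
    · intro h
      have h1 : (q t : ℤ) ^ ((t + 1) ^ (i : ℕ) + 1) ∣ g i - a i :=
        (pow_dvd_pow _ hlt).trans hQ
      have h2 : (q t : ℤ) ^ ((t + 1) ^ (i : ℕ) + 1) ∣ a i := by
        have := dvd_sub h h1
        rwa [sub_sub_cancel] at this
      rw [ha, pow_succ] at h2
      have hq0 : (q t : ℤ) ^ ((t + 1) ^ (i : ℕ)) ≠ 0 :=
        pow_ne_zero _ (by exact_mod_cast (hq t).ne_zero)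
      have h3 := (mul_dvd_mul_iff_left hq0).mp h2
      have hpr : Prime (q t : ℤ) := Nat.prime_iff_prime_int.mp (hq t)
      obtain ⟨s, hs, hds⟩ := (Prime.dvd_finsetProd_iff hpr _).mp h3
      have h4 := hpr.dvd_of_dvd_pow hds
      have h5 : q t ∣ q s := by exact_mod_cast h4
      have h6 := (Nat.prime_dvd_prime_iff_eq (hq t) (hq s)).mp h5
      exact Finset.ne_of_mem_erase hs (hqinj h6).symm
  refine ⟨Q, a, Finset.prod_pos fun t _ => pow_pos (hq t).pos _, fun g hg => ⟨?_, ?_⟩⟩
  · intro i hi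
    have h0 : 0 ∈ Finset.range m := by simp [m]
    have := (hval g hg 0 h0 i).2
    rw [hi] at this
    exact this (dvd_zero _)
  · intro Λ hΛ hΛ0
    have hcard : (Λ.biUnion fun l => (Finset.range m).filter fun t =>
        ∑ i : Fin n, l i * ((t + 1 : ℕ) : ℤ) ^ (i : ℕ) = 0).card < (Finset.range m).card := by
      refine lt_of_le_of_lt (Finset.card_biUnion_le_card_mul _ _ (n - 1)
        fun l hl => card_moment_le l (hΛ0 l hl) m) ?_
      rw [Finset.card_range]
      have : Λ.card * (n - 1) ≤ N * (n - 1) := Nat.mul_le_mul_right _ hΛ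
      simp only [m]
      omega
    obtain ⟨t, ht, htn⟩ := Finset.exists_mem_notMem_of_card_lt_card hcard
    refine ⟨q t, hq t, hqP t, fun l hl h0 => ?_⟩
    apply htn
    rw [Finset.mem_biUnion]
    refine ⟨l, hl, Finset.mem_filter.mpr ⟨ht, ?_⟩⟩
    rw [← h0]
    refine Finset.sum_congr rfl fun i _ => ?_
    obtain ⟨h1, h2⟩ := hval g hg t ht i
    rw [padicValRat_eq (q t) (hq t) (g i) _ h1 h2]
    push_cast
    ring

end Pool.Agent.CITTrans
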