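import Pool.Agent.CITTrans.Core
import Pool.Agent.CITTrans.Prog

set_option autoImplicit false

/-!
Translates without atypical subvarieties: the main argument.
-/

namespace Pool.Agent.CITTrans

open Module

/-- Translating does not change the dimension. -/
theorem dim_translate {n : ℕ} (V : Set (Fin n → ℂ)) (g : Fin n → ℚ) (hg : ∀ i, g i ≠ 0) :
    ringKrullDim (MvPolynomial (Fin n) ℂ ⧸ vanI ((fun x i => (g i : ℂ) * x i) '' V)) =
      ringKrullDim (MvPolynomial (Fin n) ℂ ⧸ vanI V) := by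
  have hgC : ∀ i, (g i : ℂ) ≠ 0 := fun i => by exact_mod_cast hg i
  let φ : MvPolynomial (Fin n) ℂ →ₐ[ℂ] MvPolynomial (Fin n) ℂ :=
    MvPolynomial.aeval (fun i => MvPolynomial.C ((g i : ℂ)) * MvPolynomial.X i)
  let ψ : MvPolynomial (Fin n) ℂ →ₐ[ℂ] MvPolynomial (Fin n) ℂ :=
    MvPolynomial.aeval (fun i => MvPolynomial.C ((g i : ℂ)⁻¹) * MvPolynomial.X i)
  let σ : MvPolynomial (Fin n) ℂ ≃ₐ[ℂ] MvPolynomial (Fin n) ℂ := AlgEquiv.ofAlgHom φ ψ
    (by
      ext i
      simp only [φ, ψ, AlgHom.coe_comp, Function.comp_apply, MvPolynomial.aeval_X, map_mul,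
        MvPolynomial.algHom_C, MvPolynomial.algebraMap_eq, AlgHom.coe_id, id_eq]
      rw [← mul_assoc, ← MvPolynomial.C_mul, inv_mul_cancel₀ (hgC i), MvPolynomial.C_1, one_mul])
    (by
      ext i
      simp only [φ, ψ, AlgHom.coe_comp, Function.comp_apply, MvPolynomial.aeval_X, map_mul,
        MvPolynomial.algHom_C, MvPolynomial.algebraMap_eq, AlgHom.coe_id, id_eq]
      rw [← mul_assoc, ← MvPolynomial.C_mul, mul_inv_cancel₀ (hgC i), MvPolynomial.C_1, one_mul])
  have heval : ∀ (x : Fin n → ℂ) (G : MvPolynomial (Fin n) ℂ),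
      MvPolynomial.eval x (σ G) = MvPolynomial.eval (fun i => (g i : ℂ) * x i) G := by
    intro x G
    have h3 : (MvPolynomial.aeval x : MvPolynomial (Fin n) ℂ →ₐ[ℂ] ℂ).comp φ =
        MvPolynomial.aeval (fun i => (g i : ℂ) * x i) := by
      ext i
      simp [φ]
    exact DFunLike.congr_fun h3 G
  refine ringKrullDim_eq_of_ringEquiv (Ideal.quotientEquiv _ _ σ.toRingEquiv ?_)
  ext G
  constructor
  · intro hG
    have h1 : σ.symm G ∈ vanI ((fun x i => (g i : ℂ) * x i) '' V) := by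
      rw [mem_vanI]
      rintro _ ⟨x, hx, rfl⟩
      rw [← heval x (σ.symm G), AlgEquiv.apply_symm_apply]
      exact mem_vanI.mp hG x hx
    have h2 := Ideal.mem_map_of_mem
      (σ.toRingEquiv : MvPolynomial (Fin n) ℂ →+* MvPolynomial (Fin n) ℂ) h1
    have h3 : (σ.toRingEquiv : MvPolynomial (Fin n) ℂ →+* MvPolynomial (Fin n) ℂ) (σ.symm G) = G :=
      σ.apply_symm_apply G
    rwa [h3] at h2
  · intro hG
    have h1 : vanI ((fun x i => (g i : ℂ) * x i) '' V) ≤ Ideal.comap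
        (σ.toRingEquiv : MvPolynomial (Fin n) ℂ →+* MvPolynomial (Fin n) ℂ) (vanI V) := by
      intro H hH
      rw [Ideal.mem_comap, mem_vanI]
      intro x hx
      have h2 := heval x H
      have h3 := mem_vanI.mp hH _ ⟨x, hx, rfl⟩
      exact h2.trans h3
    exact Ideal.map_le_iff_le_comap.mpr h1 hG

/-- The main theorem. -/
theorem main {n : ℕ} (V : Set (Fin n → ℂ)) (hV0 : ∀ x ∈ V, ∀ i, x i ≠ 0)
    (hV : (vanI V).IsPrime) :
    ∃ N P₀ : ℕ, ∀ g : Fin n → ℚ, (∀ i, g i ≠ 0) → Spread N P₀ g →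
      NoAtypical ((fun x i => (g i : ℂ) * x i) '' V) := by
  classical
  obtain ⟨I₀, hI₀, _⟩ := exists_indep_coords V
  set r := I₀.card with hr
  have hdep := exists_dep V r hI₀
  have hdep' : ∀ K : Finset (Fin n), ∃ F : MvPolynomial (Fin n) ℂ, K.card = r + 1 →
      F ∈ vanI V ∧ F ≠ 0 ∧ ∀ α ∈ F.support, ∀ i, i ∉ K → α i = 0 := by
    intro K
    by_cases hK : K.card = r + 1
    · obtain ⟨F, h1, h2, h3⟩ := hdep K hK
      exact ⟨F, fun _ => ⟨h1, h2, h3⟩⟩
    · exact ⟨0, fun h => absurd h hK⟩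
  choose F hF using hdep'
  -- coefficients
  let S : Finset ℂ := Finset.univ.biUnion fun K : Finset (Fin n) =>
    ((F K).support.image fun α => (F K).coeff α) ∪
      ((F K).support.image fun α => ((F K).coeff α)⁻¹)
  have hS : ∀ K, ∀ α ∈ (F K).support,
      (F K).coeff α ∈ (S : Set ℂ) ∧ ((F K).coeff α)⁻¹ ∈ (S : Set ℂ) := by
    intro K α hα
    constructor
    · refine Finset.mem_coe.mpr (Finset.mem_biUnion.mpr ⟨K, Finset.mem_univ K, ?_⟩)
      exact Finset.mem_union_left _ (Finset.mem_image_of_mem _ hα)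
    · refine Finset.mem_coe.mpr (Finset.mem_biUnion.mpr ⟨K, Finset.mem_univ K, ?_⟩)
      exact Finset.mem_union_right _ (Finset.mem_image_of_mem (fun α => ((F K).coeff α)⁻¹) hα)
  obtain ⟨P₀, hP₀⟩ := exists_prime_bound S
  -- differences of exponents
  let D : Finset (Fin n) → Finset (Fin n → ℤ) := fun K =>
    if K.card = r + 1 then (F K).support.offDiag.image fun αβ => fun i =>
      (αβ.1 i : ℤ) - (αβ.2 i : ℤ) else {0}
  let C := Fintype.piFinset D
  refine ⟨C.card, P₀, ?_⟩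
  intro g hg hspread M η T _ hη hT X hXW hXT hXprime hlt
  have hgC : ∀ i, (g i : ℂ) ≠ 0 := fun i => by exact_mod_cast hg i
  have hX : (vanI X).IsPrime := hXprime
  have h0 : ∀ x ∈ X, ∀ i, x i ≠ 0 := by
    intro x hx
    obtain ⟨y, hy, rfl⟩ := hXW hx
    exact fun i => mul_ne_zero (hgC i) (hV0 y hy i)
  obtain ⟨I, hIdim, hI⟩ := exists_indep_coords X
  obtain ⟨k, hk, hkT⟩ := torus_dim M η hη T hT
  -- the dimension inequality
  have hineq : r + 1 ≤ finrank ℚ (QQ M) + I.card := by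
    have h1 := dim_translate V g hg
    rw [hI₀] at h1
    have h2 : (r : WithBot ℕ∞) + (k : WithBot ℕ∞) < (I.card : WithBot ℕ∞) + (n : WithBot ℕ∞) := by
      refine lt_of_le_of_lt ?_ (lt_of_lt_of_eq hlt (by rw [← hIdim]))
      exact add_le_add h1.ge hkT
    have h3 : r + k < I.card + n := by exact_mod_cast h2
    omega
  have hXM : ∀ x ∈ X, ∀ a ∈ M, ∏ i, x i ^ a i = ∏ i, η i ^ a i := by
    intro x hx
    have := hXT hx
    rw [hT] at this
    exact this.2
  have hMI : ∀ a ∈ M, (∀ i, i ∉ I → a i = 0) → a = 0 := by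
    intro a ha hs
    exact eq_zero_of_indep X I hI h0 a hs _ (gen_prod_eq X h0 a _ (fun x hx => hXM x hx a ha))
  -- common vectors
  have hcv : ∀ c ∈ C, ∃ l : Fin n → ℤ, l ≠ 0 ∧ l ∈ M ⊔ suppSub I ∧
      ∃ k : ℤ, k ≠ 0 ∧ k • l ∈ Submodule.span ℤ (c '' {K | K.card = r + 1}) := by
    intro c hc
    refine exists_common_vector M I r c (fun K hK => ?_) hMI hineq
    have h1 := Fintype.mem_piFinset.mp hc K
    simp only [D, if_pos hK] at h1
    obtain ⟨⟨α, β⟩, hαβ, hcK⟩ := Finset.mem_image.mp h1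
    rw [Finset.mem_offDiag] at hαβ
    obtain ⟨hα, hβ, hne⟩ := hαβ
    constructor
    · intro h
      apply hne
      ext i
      have h2 : (α i : ℤ) - (β i : ℤ) = 0 := congrFun (hcK.trans h) i
      change α i = β i
      omega
    · intro i hi
      rw [← hcK]
      simp only
      rw [(hF K hK).2.2 α hα i hi, (hF K hK).2.2 β hβ i hi, sub_self]
  choose lam hlam0 hlam1 hlam2 using hcv
  let Λ : Finset (Fin n → ℤ) := C.attach.image fun c => lam c.1 c.2
  obtain ⟨p, hp, hpP, hpΛ⟩ := hspread Λ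
    (Finset.card_image_le.trans (by rw [Finset.card_attach]))
    (by
      intro l hl
      obtain ⟨c, _, rfl⟩ := Finset.mem_image.mp hl
      exact hlam0 _ _)
  obtain ⟨c, hc1, hc2, hc3⟩ := exists_choice X h0 I hI M η hη hXM g hg r F
    (fun K hK => (hF K hK).2.1)
    (fun K hK x hx => by
      obtain ⟨y, hy, rfl⟩ := hXW hx
      have h1 : (fun i => (g i : ℂ)⁻¹ * ((g i : ℂ) * y i)) = y := by
        funext i
        rw [inv_mul_cancel_left₀ (hgC i)]
      rw [h1]
      exact mem_vanI.mp (hF K hK).1 y hy)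
    (S : Set ℂ) (fun K _ α hα => hS K α hα) p hp (hP₀ p hp hpP)
  have hcC : c ∈ C := by
    rw [Fintype.mem_piFinset]
    intro K
    by_cases hK : K.card = r + 1
    · simp only [D, if_pos hK]
      obtain ⟨α, hα, β, hβ, hne, heq⟩ := hc1 K hK
      exact Finset.mem_image.mpr ⟨(α, β), Finset.mem_offDiag.mpr ⟨hα, hβ, hne⟩, heq.symm⟩
    · simp only [D, if_neg hK]
      exact Finset.mem_singleton.mpr (hc2 K hK)
  obtain ⟨k', hk', hkl⟩ := hlam2 c hcC
  refine hpΛ (lam c hcC) (Finset.mem_image.mpr ⟨⟨c, hcC⟩, Finset.mem_attach _ _, rfl⟩) ?_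
  exact hc3 _ (hlam1 c hcC) k' hk' hkl

end Pool.Agent.CITTrans
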