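import Pool.Agent.CITTrans.Torus

set_option autoImplicit false

/-!
Valuations: relations between monomials, the subgroup of monomials of value one, and the value of
a rational number.
-/

namespace Pool.Agent.CITTrans

open Module

/-- Exponent vectors of the multiplicative relations between elements of a commutative group. -/
def rel {n : ℕ} {G : Type*} [CommGroup G] (w : Fin n → G) : Submodule ℤ (Fin n → ℤ) where
  carrier := {a | ∏ i, w i ^ a i = 1}
  zero_mem' := by simp
  add_mem' := by
    intro a b ha hb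
    simp only [Set.mem_ofPred_eq, Pi.add_apply, zpow_add, Finset.prod_mul_distrib] at *
    rw [ha, hb, one_mul]
  smul_mem' := by
    intro k a ha
    simp only [Set.mem_ofPred_eq, Pi.smul_apply, smul_eq_mul] at *
    have : ∀ i, w i ^ (k * a i) = (w i ^ a i) ^ k := fun i => by rw [mul_comm, zpow_mul]
    simp only [this]
    rw [Finset.prod_zpow, ha, one_zpow]

theorem mem_rel {n : ℕ} {G : Type*} [CommGroup G] {w : Fin n → G} {a : Fin n → ℤ} :
    a ∈ rel w ↔ ∏ i, w i ^ a i = 1 := Iff.rfl

theorem mem_rel_of_smul_mem {n : ℕ} {Γ : Type*} [LinearOrderedCommGroupWithZero Γ]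
    {w : Fin n → Γˣ} {a : Fin n → ℤ} {k : ℤ} (hk : k ≠ 0) (h : k • a ∈ rel w) : a ∈ rel w := by
  rw [mem_rel] at *
  simp only [Pi.smul_apply, smul_eq_mul] at h
  have : ∀ i, w i ^ (k * a i) = (w i ^ a i) ^ k := fun i => by rw [mul_comm, zpow_mul]
  simp only [this] at h
  rw [Finset.prod_zpow] at h
  exact (IsMulTorsionFree.zpow_eq_one_iff_left hk).mp h

/-- If a sum of monomials with unit coefficients vanishes, two of them have the same value. -/
theorem exists_two_monomials {n : ℕ} {K : Type} [Field K] [Algebra ℂ K] {Γ : Type*}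
    [LinearOrderedCommGroupWithZero Γ] (v : Valuation K Γ) (y : Fin n → K)
    (hy : ∀ i, y i ≠ 0) (F : MvPolynomial (Fin n) ℂ) (hF : F ≠ 0)
    (hFy : MvPolynomial.aeval y F = 0)
    (hv : ∀ α ∈ F.support, v (algebraMap ℂ K (F.coeff α)) = 1) :
    ∃ α ∈ F.support, ∃ β ∈ F.support, α ≠ β ∧
      ∏ i, v (y i) ^ α i = ∏ i, v (y i) ^ β i := by
  classical
  by_contra hcon
  push Not at hcon
  have hne : F.support.Nonempty := by
    rw [Finset.nonempty_iff_ne_empty]
    intro h
    exact hF (MvPolynomial.support_eq_empty.mp h)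
  obtain ⟨α, hα, hmax⟩ := Finset.exists_max_image F.support
    (fun α => ∏ i, v (y i) ^ α i) hne
  have hval : ∀ β ∈ F.support, v (algebraMap ℂ K (F.coeff β) * ∏ i, y i ^ β i) =
      ∏ i, v (y i) ^ β i := by
    intro β hβ
    rw [map_mul, hv β hβ, one_mul, map_prod]
    simp only [map_pow]
  have hsum : algebraMap ℂ K (F.coeff α) * ∏ i, y i ^ α i =
      -∑ β ∈ F.support.erase α, algebraMap ℂ K (F.coeff β) * ∏ i, y i ^ β i := by
    rw [MvPolynomial.aeval_def, MvPolynomial.eval₂_eq'] at hFy
    rw [← Finset.add_sum_erase _ _ hα] at hFy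
    exact eq_neg_of_add_eq_zero_left hFy
  have hne0 : ∏ i, v (y i) ^ α i ≠ 0 := by
    refine Finset.prod_ne_zero_iff.mpr fun i _ => pow_ne_zero _ ?_
    exact (Valuation.ne_zero_iff v).mpr (hy i)
  have hlt : v (-∑ β ∈ F.support.erase α, algebraMap ℂ K (F.coeff β) * ∏ i, y i ^ β i) <
      ∏ i, v (y i) ^ α i := by
    rw [Valuation.map_neg]
    refine Valuation.map_sum_lt v hne0 fun β hβ => ?_
    have hβ' := Finset.mem_of_mem_erase hβ
    rw [hval β hβ']
    refine lt_of_le_of_ne (hmax β hβ') ?_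
    exact hcon β hβ' α hα (Finset.ne_of_mem_erase hβ)
  rw [← hsum, hval α hα] at hlt
  exact lt_irrefl _ hlt

/-- The value of an integer at a valuation above `p`. -/
theorem val_natCast {K : Type} [Field K] {Γ : Type*}
    [LinearOrderedCommGroupWithZero Γ] (v : Valuation K Γ) (p : ℕ) (hp : p.Prime)
    (hvp : v (p : K) < 1) (hint : ∀ m : ℤ, v (m : K) ≤ 1) (m : ℕ) (hm : m ≠ 0) :
    v (m : K) = v (p : K) ^ (padicValNat p m) := by
  have : Fact p.Prime := ⟨hp⟩
  obtain ⟨m', hm'⟩ : p ^ padicValNat p m ∣ m := pow_padicValNat_dvd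
  have hndvd : ¬ p ∣ m' := by
    rintro ⟨m'', rfl⟩
    have h1 : p ^ (padicValNat p m + 1) ∣ m := ⟨m'', by rw [pow_succ, mul_assoc]; exact hm'⟩
    exact pow_succ_padicValNat_not_dvd hm h1
  have hcop : IsCoprime (p : ℤ) (m' : ℤ) := by
    rw [Nat.isCoprime_iff_coprime]
    exact (Nat.Prime.coprime_iff_not_dvd hp).mpr hndvd
  obtain ⟨a, b, hab⟩ := hcop
  have hvm' : v (m' : K) = 1 := by
    refine le_antisymm (by exact_mod_cast hint (m' : ℤ)) ?_
    by_contra hlt
    push Not at hlt
    have h1 : ((a * p + b * m' : ℤ) : K) = 1 := by rw [hab, Int.cast_one]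
    have h2 : v ((a : K) * (p : K) + (b : K) * (m' : K)) < 1 := by
      refine Valuation.map_add_lt v ?_ ?_
      · rw [map_mul]
        exact (mul_le_of_le_one_left' (hint a)).trans_lt hvp
      · rw [map_mul]
        exact (mul_le_of_le_one_left' (hint b)).trans_lt hlt
    have h3 : (a : K) * (p : K) + (b : K) * (m' : K) = 1 := by
      rw [← h1]
      push_cast
      ring
    rw [h3, map_one] at h2
    exact lt_irrefl _ h2
  conv_lhs => rw [hm']
  rw [Nat.cast_mul, map_mul, hvm', mul_one, Nat.cast_pow, map_pow]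

/-- The value of a rational number at a valuation above `p`. -/
theorem val_ratCast {K : Type} [Field K] [CharZero K] {Γ : Type*}
    [LinearOrderedCommGroupWithZero Γ] (v : Valuation K Γ) (p : ℕ) (hp : p.Prime)
    (hvp : v (p : K) < 1) (hint : ∀ m : ℤ, v (m : K) ≤ 1) (q : ℚ) (hq : q ≠ 0) :
    v (q : K) = v (p : K) ^ (padicValRat p q) := by
  have hnum : v (q.num : K) = v (p : K) ^ (padicValNat p q.num.natAbs) := by
    have h1 : v (q.num : K) = v (q.num.natAbs : K) := by
      rcases Int.natAbs_eq q.num with h | h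
      · conv_lhs => rw [h]
        rw [Int.cast_natCast]
      · conv_lhs => rw [h]
        rw [Int.cast_neg, Valuation.map_neg, Int.cast_natCast]
    rw [h1]
    exact val_natCast v p hp hvp hint _ (Int.natAbs_ne_zero.mpr (Rat.num_ne_zero.mpr hq))
  have hden : v (q.den : K) = v (p : K) ^ (padicValNat p q.den) :=
    val_natCast v p hp hvp hint _ q.den_nz
  have hp0 : v (p : K) ≠ 0 := by
    rw [Valuation.ne_zero_iff]
    exact_mod_cast hp.ne_zero
  rw [Rat.cast_def, map_div₀, hnum, hden, padicValRat, padicValInt, zpow_sub₀ hp0,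
    zpow_natCast, zpow_natCast]

end Pool.Agent.CITTrans
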