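import Pool.Agent.CITTrans.Defs

set_option autoImplicit false

namespace Pool.Agent.CITTrans

/-- The vectors of `p`-adic valuations of `c`, for all primes `p`, are not covered by any `N`
rational hyperplanes through the origin. -/
def SpreadOn {ι : Type} [Fintype ι] (N : ℕ) (c : ι → ℚ) : Prop :=
  ∀ Λ : Finset (ι → ℤ), Λ.card ≤ N → (∀ l ∈ Λ, l ≠ 0) →
    ∃ p : ℕ, p.Prime ∧ ∀ l ∈ Λ, ∑ i, l i * padicValRat p (c i) ≠ 0

/-- The common zeros in the torus of the `k` polynomials with supports `A 0, ..., A (k - 1)` and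
coefficients `c`. -/
def zeros {n k : ℕ} (A : Fin k → Finset (Fin n → ℕ)) (c : ((j : Fin k) × A j) → ℚ) :
    Set (Fin n → ℂ) :=
  {x | (∀ i, x i ≠ 0) ∧ ∀ j, ∑ α : A j, (c ⟨j, α⟩ : ℂ) * ∏ i, x i ^ (α : Fin n → ℕ) i = 0}

/-- Every irreducible `X` in the intersection of `W` with a torsion coset `T` of a subtorus has
`dim X ≤ dim T - k`. -/
def ProperIntersections {n : ℕ} (k : ℕ) (W : Set (Fin n → ℂ)) : Prop :=
  ∀ (M : Submodule ℤ (Fin n → ℤ)) (η : Fin n → ℂ) (T : Set (Fin n → ℂ)),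
    (∀ a : Fin n → ℤ, ∀ m : ℤ, m ≠ 0 → m • a ∈ M → a ∈ M) →
    (∃ m : ℕ, 0 < m ∧ ∀ i, η i ^ m = 1) →
    T = {y : Fin n → ℂ | (∀ i, y i ≠ 0) ∧
          ∀ a ∈ M, ∏ i, y i ^ a i = ∏ i, η i ^ a i} →
    ∀ X : Set (Fin n → ℂ), X ⊆ W → X ⊆ T →
      (⨅ x ∈ X, RingHom.ker (MvPolynomial.eval x : MvPolynomial (Fin n) ℂ →+* ℂ)).IsPrime →
      ringKrullDim (MvPolynomial (Fin n) ℂ ⧸
          (⨅ x ∈ X, RingHom.ker (MvPolynomial.eval x : MvPolynomial (Fin n) ℂ →+* ℂ)))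
        + (k : WithBot ℕ∞) ≤
      ringKrullDim (MvPolynomial (Fin n) ℂ ⧸
          (⨅ x ∈ T, RingHom.ker (MvPolynomial.eval x : MvPolynomial (Fin n) ℂ →+* ℂ)))

/-- `W` is an irreducible component of `V`. -/
def IsComponent {n : ℕ} (V W : Set (Fin n → ℂ)) : Prop :=
  W ⊆ V ∧
    (⨅ x ∈ W, RingHom.ker (MvPolynomial.eval x : MvPolynomial (Fin n) ℂ →+* ℂ)).IsPrime ∧
    ∀ W' : Set (Fin n → ℂ), W ⊆ W' → W' ⊆ V →
      (⨅ x ∈ W', RingHom.ker (MvPolynomial.eval x : MvPolynomial (Fin n) ℂ →+* ℂ)).IsPrime →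
      W' = W

end Pool.Agent.CITTrans
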