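import Pool.Agent.CITTrans.System

set_option autoImplicit false

/-!
Components of systems with spread out coefficients; a residue class of such systems.
-/

namespace Pool.Agent.CITTrans

open Module

theorem component_main {n k : ℕ} (A : Fin k → Finset (Fin n → ℕ))
    (c : ((j : Fin k) × A j) → ℚ) (h : ProperIntersections k (zeros A c))
    (W : Set (Fin n → ℂ)) (hW : IsComponent (zeros A c) W) :
    ringKrullDim (MvPolynomial (Fin n) ℂ ⧸ vanI W) + (k : WithBot ℕ∞) = n ∧ NoAtypical W := by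
  obtain ⟨hWV, hWp, hWmax⟩ := hW
  have hlow : (n : WithBot ℕ∞) ≤ ringKrullDim (MvPolynomial (Fin n) ℂ ⧸ vanI W) +
      (k : WithBot ℕ∞) := by
    refine krull_lower (poly A c) (zeros A c) W ?_ hWV hWp hWmax
    ext x
    simp only [zeros, Set.mem_ofPred_eq, eval_poly]
  have hup : ringKrullDim (MvPolynomial (Fin n) ℂ ⧸ vanI W) + (k : WithBot ℕ∞) ≤ n := by
    have h1 := h ⊥ (fun _ => 1) {y : Fin n → ℂ | (∀ i, y i ≠ 0) ∧
          ∀ a ∈ (⊥ : Submodule ℤ (Fin n → ℤ)), ∏ i, y i ^ a i = ∏ i, (1 : ℂ) ^ a i}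
      (fun a m hm ha => by
        rw [Submodule.mem_bot] at ha ⊢
        exact (smul_eq_zero.mp ha).resolve_left hm)
      ⟨1, one_pos, fun _ => one_pow 1⟩ rfl W hWV (fun x hx => ⟨(hWV hx).1, fun a ha => by
        rw [Submodule.mem_bot] at ha
        subst ha
        simp⟩) hWp
    refine h1.trans ((ringKrullDim_quotient_le _).trans ?_)
    rw [MvPolynomial.ringKrullDim_of_isNoetherianRing]
    simp
  refine ⟨le_antisymm hup hlow, ?_⟩
  intro M η T hM hη hT X hXW hXT hXp hlt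
  have h1 := h M η T hM hη hT X (hXW.trans hWV) hXT hXp
  refine absurd hlt (not_lt_of_ge ?_)
  calc ringKrullDim (MvPolynomial (Fin n) ℂ ⧸ vanI X) + (n : WithBot ℕ∞)
      ≤ ringKrullDim (MvPolynomial (Fin n) ℂ ⧸ vanI X) +
        (ringKrullDim (MvPolynomial (Fin n) ℂ ⧸ vanI W) + (k : WithBot ℕ∞)) := by
        gcongr
    _ = ringKrullDim (MvPolynomial (Fin n) ℂ ⧸ vanI W) +
        (ringKrullDim (MvPolynomial (Fin n) ℂ ⧸ vanI X) + (k : WithBot ℕ∞)) := by
        rw [add_left_comm]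
    _ ≤ ringKrullDim (MvPolynomial (Fin n) ℂ ⧸ vanI W) +
        ringKrullDim (MvPolynomial (Fin n) ℂ ⧸ vanI T) := by
        gcongr

theorem exists_progression_on {ι : Type} [Fintype ι] (N : ℕ) :
    ∃ (Q : ℕ) (a : ι → ℤ), 0 < Q ∧ ∀ g : ι → ℤ, (∀ i, (Q : ℤ) ∣ g i - a i) →
      (∀ i, g i ≠ 0) ∧ SpreadOn N (fun i => (g i : ℚ)) := by
  classical
  let e := Fintype.equivFin ι
  obtain ⟨Q, a, hQ, h⟩ := exists_progression (Fintype.card ι) N 0
  refine ⟨Q, fun i => a (e i), hQ, fun g hg => ?_⟩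
  obtain ⟨h1, h2⟩ := h (fun t => g (e.symm t)) (fun t => by
    have := hg (e.symm t)
    simpa using this)
  constructor
  · intro i
    have := h1 (e i)
    simpa using this
  · intro Λ hΛ hΛ0
    obtain ⟨p, hp, _, hpΛ⟩ := h2 (Λ.image fun l t => l (e.symm t))
      (Finset.card_image_le.trans hΛ) (by
        intro l hl
        obtain ⟨l', hl', rfl⟩ := Finset.mem_image.mp hl
        intro h0
        apply hΛ0 l' hl'
        funext i
        have := congrFun h0 (e i)
        simpa using this)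
    refine ⟨p, hp, fun l hl h0 => ?_⟩
    apply hpΛ _ (Finset.mem_image_of_mem _ hl)
    rw [← h0]
    exact (Equiv.sum_comp e.symm (fun i => l i * padicValRat p (g i)))

end Pool.Agent.CITTrans
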