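import Pool.Agent.CITTrans.Core
import Pool.Agent.CITTrans.KrullLower
import Pool.Agent.CITTrans.SysDefs
import Pool.Agent.CITTrans.Prog

set_option autoImplicit false

/-!
Systems of polynomial equations with spread out coefficients.
-/

namespace Pool.Agent.CITTrans

open Module

/-- If a sum of nonzero terms vanishes, two of them have the same value. -/
theorem exists_two_terms {K : Type} [Field K] {Γ : Type*}
    [LinearOrderedCommGroupWithZero Γ] (v : Valuation K Γ) {ι : Type} [Fintype ι] [Nonempty ι]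
    (z : ι → K) (hz : ∀ i, z i ≠ 0) (hsum : ∑ i, z i = 0) :
    ∃ i j, i ≠ j ∧ v (z i) = v (z j) := by
  classical
  by_contra hcon
  push Not at hcon
  obtain ⟨a, _, hmax⟩ := Finset.exists_max_image (Finset.univ : Finset ι) (fun i => v (z i))
    Finset.univ_nonempty
  have h1 : z a = -∑ i ∈ Finset.univ.erase a, z i := by
    rw [← Finset.add_sum_erase _ _ (Finset.mem_univ a)] at hsum
    exact eq_neg_of_add_eq_zero_left hsum
  have h0 : v (z a) ≠ 0 := (Valuation.ne_zero_iff v).mpr (hz a)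
  have h2 : v (-∑ i ∈ Finset.univ.erase a, z i) < v (z a) := by
    rw [Valuation.map_neg]
    refine Valuation.map_sum_lt v h0 fun i hi => ?_
    exact lt_of_le_of_ne (hmax i (Finset.mem_univ i)) (hcon i a (Finset.ne_of_mem_erase hi))
  rw [← h1] at h2
  exact lt_irrefl _ h2

/-- A nontrivial integer combination of `k` vectors in a group of rank greater than `n - k`. -/
theorem exists_combination {n k : ℕ} (H : Submodule ℤ (Fin n → ℤ)) (δ : Fin k → Fin n → ℤ)
    (hH : n + 1 ≤ finrank ℚ (QQ H) + k) :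
    ∃ b : Fin k → ℤ, b ≠ 0 ∧ ∑ j, b j • δ j ∈ H := by
  classical
  let Φ : (Fin k → ℚ) →ₗ[ℚ] ((Fin n → ℚ) ⧸ QQ H) :=
    ∑ j : Fin k, (LinearMap.proj j : (Fin k → ℚ) →ₗ[ℚ] ℚ).smulRight
      ((QQ H).mkQ (fun i => (δ j i : ℚ)))
  have hΦ : ∀ b : Fin k → ℚ, Φ b = (QQ H).mkQ (∑ j, b j • fun i => (δ j i : ℚ)) := by
    intro b
    simp only [Φ, LinearMap.sum_apply, LinearMap.smulRight_apply, LinearMap.proj_apply, map_sum,
      map_smul]
  have hker : LinearMap.ker Φ ≠ ⊥ := by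
    intro h
    have hinj := LinearMap.ker_eq_bot.mp h
    have h1 := LinearMap.finrank_le_finrank_of_injective hinj
    have h2 := Submodule.finrank_quotient_add_finrank (QQ H)
    rw [finrank_fin_fun] at h1 h2
    omega
  obtain ⟨b, hb, hb0⟩ := (Submodule.ne_bot_iff _).mp hker
  rw [LinearMap.mem_ker, hΦ, Submodule.mkQ_apply, Submodule.Quotient.mk_eq_zero] at hb
  obtain ⟨m, hm, a, ha, hma⟩ := exists_multiple_mem hb
  -- clear the denominators of `b`
  obtain ⟨d, hd, hdb⟩ : ∃ d : ℤ, d ≠ 0 ∧ ∀ j, ∃ e : ℤ, (e : ℚ) = d * b j := by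
    refine ⟨∏ j, ((b j).den : ℤ), Finset.prod_ne_zero_iff.mpr fun j _ => by
      exact_mod_cast (b j).den_nz, fun j => ?_⟩
    refine ⟨(∏ i ∈ Finset.univ.erase j, ((b i).den : ℤ)) * (b j).num, ?_⟩
    have h1 : ((∏ j, ((b j).den : ℤ) : ℤ) : ℚ) =
        ((∏ i ∈ Finset.univ.erase j, ((b i).den : ℤ) : ℤ) : ℚ) * ((b j).den : ℚ) := by
      rw [← Finset.prod_erase_mul _ _ (Finset.mem_univ j)]
      push_cast
      ring
    have h2 : ((b j).num : ℚ) = ((b j).den : ℚ) * b j := by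
      rw [mul_comm]
      exact (Rat.mul_den_eq_num (b j)).symm
    rw [h1, Int.cast_mul, h2]
    ring
  choose e he using hdb
  refine ⟨fun j => m * e j, ?_, ?_⟩
  · intro h
    apply hb0
    funext j
    have h1 := congrFun h j
    have h2 : e j = 0 := (mul_eq_zero.mp h1).resolve_left hm
    have h3 := he j
    rw [h2, Int.cast_zero] at h3
    have hd' : (d : ℚ) ≠ 0 := by exact_mod_cast hd
    exact (mul_eq_zero.mp h3.symm).resolve_left hd'
  · have h1 : ∑ j, (m * e j) • δ j = d • a := by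
      funext i
      rw [Finset.sum_apply]
      simp only [Pi.smul_apply, smul_eq_mul]
      have h2 := hma i
      rw [Finset.sum_apply] at h2
      simp only [Pi.smul_apply, smul_eq_mul] at h2
      have h3 : ((∑ j, m * e j * δ j i : ℤ) : ℚ) = ((d * a i : ℤ) : ℚ) := by
        push_cast
        rw [h2]
        simp only [he]
        rw [Finset.mul_sum, Finset.mul_sum]
        refine Finset.sum_congr rfl fun j _ => ?_
        ring
      exact_mod_cast h3
    rw [h1]
    exact H.smul_mem d ha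

theorem inv_prime_notMem (p : ℕ) (hp : p.Prime) :
    ((p : ℂ)⁻¹) ∉ Subring.closure (∅ : Set ℂ) := by
  rw [Subring.closure_empty, Subring.mem_bot]
  rintro ⟨m, hm⟩
  have hp0 : (p : ℂ) ≠ 0 := by exact_mod_cast hp.ne_zero
  have h1 : ((m * p : ℤ) : ℂ) = ((1 : ℤ) : ℂ) := by
    push_cast
    rw [hm, inv_mul_cancel₀ hp0]
  have h2 : m * p = 1 := by exact_mod_cast h1
  have h3 : (p : ℤ) ∣ 1 := ⟨m, by rw [← h2, mul_comm]⟩
  have h4 : p ∣ 1 := by exact_mod_cast h3
  exact hp.one_lt.ne' (Nat.dvd_one.mp h4)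

theorem finrank_sup_ge {n : ℕ} (M : Submodule ℤ (Fin n → ℤ)) (I : Finset (Fin n))
    (hMI : ∀ a ∈ M, (∀ i, i ∉ I → a i = 0) → a = 0) :
    finrank ℚ (QQ M) + I.card ≤ finrank ℚ (QQ (M ⊔ suppSub I)) := by
  have h2 : QQ M ⊔ QQ (suppSub I) ≤ QQ (M ⊔ suppSub I) :=
    sup_le (QQ_mono le_sup_left) (QQ_mono le_sup_right)
  have h3 := Submodule.finrank_mono h2
  have h4 := Submodule.finrank_sup_add_finrank_inf_eq (QQ M) (QQ (suppSub I))
  rw [QQ_inf_eq_bot hMI, finrank_bot, add_zero] at h4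
  have h5 := card_le_finrank_QQ_suppSub I
  omega

/-- The vector of the relation between the valuations of the coefficients. -/
def lamVec {n k : ℕ} {A : Fin k → Finset (Fin n → ℕ)} (ω : (j : Fin k) → (A j) × (A j))
    (b : Fin k → ℤ) : ((j : Fin k) × A j) → ℤ :=
  fun z => b z.1 * ((if z.2 = (ω z.1).2 then 1 else 0) - (if z.2 = (ω z.1).1 then 1 else 0))

theorem lamVec_ne_zero {n k : ℕ} {A : Fin k → Finset (Fin n → ℕ)}
    (ω : (j : Fin k) → (A j) × (A j)) (hω : ∀ j, (ω j).1 ≠ (ω j).2) (b : Fin k → ℤ)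
    (hb : b ≠ 0) : lamVec ω b ≠ 0 := by
  obtain ⟨j, hj⟩ := Function.ne_iff.mp hb
  intro h
  have h1 := congrFun h ⟨j, (ω j).2⟩
  simp only [lamVec, if_true, if_neg (hω j).symm, sub_zero, mul_one, Pi.zero_apply] at h1
  exact hj h1

theorem sum_lamVec {n k : ℕ} {A : Fin k → Finset (Fin n → ℕ)}
    (ω : (j : Fin k) → (A j) × (A j)) (b : Fin k → ℤ) (u : ((j : Fin k) × A j) → ℤ) :
    ∑ z, lamVec ω b z * u z = ∑ j, b j * (u ⟨j, (ω j).2⟩ - u ⟨j, (ω j).1⟩) := by
  rw [Fintype.sum_sigma]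
  refine Finset.sum_congr rfl fun j _ => ?_
  simp only [lamVec]
  have h1 : ∀ γ : A j, b j * ((if γ = (ω j).2 then (1 : ℤ) else 0) -
      (if γ = (ω j).1 then 1 else 0)) * u ⟨j, γ⟩ =
      (if γ = (ω j).2 then b j * u ⟨j, γ⟩ else 0) - (if γ = (ω j).1 then b j * u ⟨j, γ⟩ else 0) := by
    intro γ
    split_ifs <;> ring
  simp only [h1]
  rw [Finset.sum_sub_distrib, Finset.sum_ite_eq' Finset.univ, Finset.sum_ite_eq' Finset.univ]
  simp only [Finset.mem_univ, if_true]
  ring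

/-- The polynomials of the system. -/
noncomputable def poly {n k : ℕ} (A : Fin k → Finset (Fin n → ℕ))
    (c : ((j : Fin k) × A j) → ℚ) (j : Fin k) : MvPolynomial (Fin n) ℂ :=
  ∑ α : A j, MvPolynomial.C ((c ⟨j, α⟩ : ℚ) : ℂ) * ∏ i, MvPolynomial.X i ^ (α : Fin n → ℕ) i

theorem eval_poly {n k : ℕ} (A : Fin k → Finset (Fin n → ℕ))
    (c : ((j : Fin k) × A j) → ℚ) (j : Fin k) (x : Fin n → ℂ) :
    MvPolynomial.eval x (poly A c j) =
      ∑ α : A j, (c ⟨j, α⟩ : ℂ) * ∏ i, x i ^ (α : Fin n → ℕ) i := by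
  simp only [poly, map_sum, map_mul, MvPolynomial.eval_C, map_prod, map_pow, MvPolynomial.eval_X]

theorem aeval_poly {n k : ℕ} (A : Fin k → Finset (Fin n → ℕ))
    (c : ((j : Fin k) × A j) → ℚ) (j : Fin k) {K : Type} [Field K] [Algebra ℂ K]
    (x : Fin n → K) :
    MvPolynomial.aeval x (poly A c j) =
      ∑ α : A j, ((c ⟨j, α⟩ : ℚ) : K) * ∏ i, x i ^ (α : Fin n → ℕ) i := by
  simp only [poly, map_sum, map_mul, MvPolynomial.aeval_C, map_prod, map_pow,
    MvPolynomial.aeval_X, map_ratCast]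

theorem sys_main {n k : ℕ} (A : Fin k → Finset (Fin n → ℕ)) (hA : ∀ j, (A j).Nonempty)
    (c : ((j : Fin k) × A j) → ℚ) (hc : ∀ z, c z ≠ 0)
    (hspread : SpreadOn (∏ j, (A j).card * ((A j).card - 1)) c) :
    ProperIntersections k (zeros A c) := by
  classical
  intro M η T _ hη hT X hXV hXT hXprime
  have hX : (vanI X).IsPrime := hXprime
  by_contra hcon
  push Not at hcon
  have h0 : ∀ x ∈ X, ∀ i, x i ≠ 0 := fun x hx => (hXV hx).1
  obtain ⟨I, hIdim, hI⟩ := exists_indep_coords X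
  obtain ⟨t, ht, htT⟩ := torus_dim M η hη T hT
  have hineq : n + 1 ≤ finrank ℚ (QQ M) + I.card + k := by
    have h2 : (t : WithBot ℕ∞) < (I.card : WithBot ℕ∞) + (k : WithBot ℕ∞) :=
      lt_of_le_of_lt htT (lt_of_lt_of_eq hcon (by rw [← hIdim]))
    have h3 : t < I.card + k := by exact_mod_cast h2
    omega
  have hXM : ∀ x ∈ X, ∀ a ∈ M, ∏ i, x i ^ a i = ∏ i, η i ^ a i := by
    intro x hx
    have := hXT hx
    rw [hT] at this
    exact this.2
  have hMI : ∀ a ∈ M, (∀ i, i ∉ I → a i = 0) → a = 0 := by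
    intro a ha hs
    exact eq_zero_of_indep X I hI h0 a hs _ (gen_prod_eq X h0 a _ (fun x hx => hXM x hx a ha))
  have hrank : n + 1 ≤ finrank ℚ (QQ (M ⊔ suppSub I)) + k := by
    have := finrank_sup_ge M I hMI
    omega
  -- choices of pairs of monomials
  let Ω : Finset ((j : Fin k) → (A j) × (A j)) :=
    Fintype.piFinset fun j => (Finset.univ : Finset (A j)).offDiag
  have hΩcard : Ω.card = ∏ j, (A j).card * ((A j).card - 1) := by
    simp only [Ω, Fintype.card_piFinset, Finset.offDiag_card, Finset.card_univ, Fintype.card_coe]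
    refine Finset.prod_congr rfl fun j _ => ?_
    rw [Nat.mul_sub_one]
  have hΩ : ∀ ω ∈ Ω, ∀ j, (ω j).1 ≠ (ω j).2 := by
    intro ω hω j
    have := Fintype.mem_piFinset.mp hω j
    exact (Finset.mem_offDiag.mp this).2.2
  have hcomb := fun ω : (j : Fin k) → (A j) × (A j) =>
    exists_combination (M ⊔ suppSub I)
      (fun j i => (((ω j).1 : Fin n → ℕ) i : ℤ) - (((ω j).2 : Fin n → ℕ) i : ℤ)) hrank
  choose b hb0 hb using hcomb
  let Λ : Finset (((j : Fin k) × A j) → ℤ) := Ω.image fun ω => lamVec ω (b ω)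
  obtain ⟨p, hp, hpΛ⟩ := hspread Λ (Finset.card_image_le.trans hΩcard.le) (by
    intro l hl
    obtain ⟨ω, hω, rfl⟩ := Finset.mem_image.mp hl
    exact lamVec_ne_zero ω (hΩ ω hω) _ (hb0 ω))
  -- a valuation above `p`
  obtain ⟨B, _, hBt, hBp⟩ := exists_valuationSubring (K := FF X) (fun i : I => gen X i) hI ∅ p
    hp (inv_prime_notMem p hp)
  set v := B.valuation with hv
  have hgen := gen_ne_zero X h0
  have hvp : v (p : FF X) < 1 := B.mem_nonunits_iff.mp hBp
  have hint : ∀ m : ℤ, v (m : FF X) ≤ 1 := fun m => (B.valuation_le_one_iff _).mpr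
    (intCast_mem B m)
  have hchar : CharZero (FF X) := algebraRat.charZero (FF X)
  have hcval : ∀ z, v ((c z : ℚ) : FF X) = v (p : FF X) ^ padicValRat p (c z) :=
    fun z => val_ratCast v p hp hvp hint (c z) (hc z)
  have hpoly : ∀ j, MvPolynomial.aeval (gen X) (poly A c j) = 0 := by
    intro j
    rw [aeval_gen_eq_zero_iff, mem_vanI]
    intro x hx
    rw [eval_poly]
    exact (hXV hx).2 j
  have htwo : ∀ j, ∃ α β : A j, α ≠ β ∧
      v (((c ⟨j, α⟩ : ℚ) : FF X) * ∏ i, gen X i ^ (α : Fin n → ℕ) i) =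
      v (((c ⟨j, β⟩ : ℚ) : FF X) * ∏ i, gen X i ^ (β : Fin n → ℕ) i) := by
    intro j
    have : Nonempty (A j) := (hA j).to_subtype
    refine exists_two_terms v
      (fun α : A j => ((c ⟨j, α⟩ : ℚ) : FF X) * ∏ i, gen X i ^ (α : Fin n → ℕ) i) ?_ ?_
    · intro α
      refine mul_ne_zero (by exact_mod_cast hc _) ?_
      exact Finset.prod_ne_zero_iff.mpr fun i _ => pow_ne_zero _ (hgen i)
    · rw [← aeval_poly]
      exact hpoly j
  choose α β hαβ hval using htwo
  let ω : (j : Fin k) → (A j) × (A j) := fun j => (α j, β j)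
  have hω : ω ∈ Ω := by
    rw [Fintype.mem_piFinset]
    intro j
    exact Finset.mem_offDiag.mpr ⟨Finset.mem_univ _, Finset.mem_univ _, hαβ j⟩
  refine hpΛ (lamVec ω (b ω)) (Finset.mem_image_of_mem _ hω) ?_
  rw [sum_lamVec]
  -- the computation
  let wx : Fin n → (B.ValueGroup)ˣ := fun i =>
    Units.mk0 (v (gen X i)) ((Valuation.ne_zero_iff v).mpr (hgen i))
  have hMx : M ⊔ suppSub I ≤ rel wx := by
    refine sup_le ?_ ?_
    · intro a ha
      rw [mem_rel]
      obtain ⟨m, hm, hηm⟩ := hη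
      have h1 := gen_prod_eq X h0 a (∏ i, η i ^ a i) (fun x hx => hXM x hx a ha)
      have h2 : (∏ i, gen X i ^ a i) ^ m = 1 := by
        rw [h1, ← map_pow, ← Finset.prod_pow]
        have h3 : ∀ i, (η i ^ a i) ^ m = 1 := by
          intro i
          rw [← zpow_natCast, ← zpow_mul, mul_comm, zpow_mul, zpow_natCast, hηm i, one_zpow]
        simp only [h3, Finset.prod_const_one, map_one]
      have h4 : (∏ i, wx i ^ a i) ^ m = 1 := by
        apply Units.ext
        have h5 := congrArg v h2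
        rw [map_one, map_pow, map_prod] at h5
        simp only [map_zpow₀] at h5
        simp only [Units.val_pow_eq_pow_val, Units.coe_prod, Units.val_zpow_eq_zpow_val,
          Units.val_one]
        exact h5
      exact (pow_eq_one_iff_left hm.ne').mp h4
    · intro a ha
      rw [mem_rel]
      refine Finset.prod_eq_one fun i _ => ?_
      by_cases hi : i ∈ I
      · have h1 : wx i = 1 := by
          apply Units.ext
          exact val_eq_one_of_mem B _ (hgen i) (hBt ⟨i, hi⟩).1 (hBt ⟨i, hi⟩).2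
        rw [h1, one_zpow]
      · have h1 : a i = 0 := ha i hi
        rw [h1, zpow_zero]
  have hpu : v (p : FF X) ≠ 0 := by
    rw [Valuation.ne_zero_iff]
    exact_mod_cast hp.ne_zero
  set u := Units.mk0 (v (p : FF X)) hpu with hu
  have hrel : ∀ j, ∏ i, wx i ^ ((((ω j).1 : Fin n → ℕ) i : ℤ) - (((ω j).2 : Fin n → ℕ) i : ℤ)) =
      u ^ (padicValRat p (c ⟨j, (ω j).2⟩) - padicValRat p (c ⟨j, (ω j).1⟩)) := by
    intro j
    have h1 : u ^ padicValRat p (c ⟨j, α j⟩) * ∏ i, wx i ^ (α j : Fin n → ℕ) i =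
        u ^ padicValRat p (c ⟨j, β j⟩) * ∏ i, wx i ^ (β j : Fin n → ℕ) i := by
      apply Units.ext
      have h2 := hval j
      rw [map_mul, map_mul, map_prod, map_prod, hcval, hcval] at h2
      simp only [map_pow] at h2
      simp only [Units.val_mul, Units.val_zpow_eq_zpow_val, Units.coe_prod,
        Units.val_pow_eq_pow_val]
      exact h2
    have h2 : ∏ i, wx i ^ (((α j : Fin n → ℕ) i : ℤ) - ((β j : Fin n → ℕ) i : ℤ)) =
        (∏ i, wx i ^ (α j : Fin n → ℕ) i) / ∏ i, wx i ^ (β j : Fin n → ℕ) i := by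
      rw [← Finset.prod_div_distrib]
      refine Finset.prod_congr rfl fun i _ => ?_
      rw [zpow_sub, zpow_natCast, zpow_natCast, div_eq_mul_inv]
    change ∏ i, wx i ^ (((α j : Fin n → ℕ) i : ℤ) - ((β j : Fin n → ℕ) i : ℤ)) =
      u ^ (padicValRat p (c ⟨j, β j⟩) - padicValRat p (c ⟨j, α j⟩))
    rw [h2, zpow_sub, div_eq_iff_eq_mul, ← mul_left_cancel_iff
      (a := u ^ padicValRat p (c ⟨j, α j⟩)), h1]
    rw [← mul_assoc, ← mul_assoc]
    congr 1
    rw [mul_comm (u ^ padicValRat p (c ⟨j, α j⟩)) (u ^ padicValRat p (c ⟨j, β j⟩)), mul_assoc,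
      mul_inv_cancel, mul_one]
  have h1 : ∑ j, (b ω) j • (fun i => (((ω j).1 : Fin n → ℕ) i : ℤ) -
      (((ω j).2 : Fin n → ℕ) i : ℤ)) ∈ rel wx := hMx (hb ω)
  rw [mem_rel] at h1
  have h2 : ∏ i, wx i ^ ((∑ j, (b ω) j • (fun i => (((ω j).1 : Fin n → ℕ) i : ℤ) -
      (((ω j).2 : Fin n → ℕ) i : ℤ))) i) =
      u ^ ∑ j, (b ω) j * (padicValRat p (c ⟨j, (ω j).2⟩) - padicValRat p (c ⟨j, (ω j).1⟩)) := by
    rw [zpow_finset_sum]
    simp only [Finset.sum_apply, Pi.smul_apply, smul_eq_mul, zpow_finset_sum]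
    rw [Finset.prod_comm]
    refine Finset.prod_congr rfl fun j _ => ?_
    rw [mul_comm ((b ω) j), zpow_mul, ← hrel j, ← Finset.prod_zpow]
    refine Finset.prod_congr rfl fun i _ => ?_
    rw [mul_comm, zpow_mul]
  rw [h2] at h1
  by_contra hne
  have h3 : u = 1 := (IsMulTorsionFree.zpow_eq_one_iff_left hne).mp h1
  have h4 : v (p : FF X) = 1 := congrArg Units.val h3
  exact hvp.ne h4

end Pool.Agent.CITTrans
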